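import Pool.Agent.H9x.PE.Sys
import Pool.Agent.H9x.PN.BlkP
import Pool.Agent.K7x.ER.Lvl
import Pool.Agent.H9x.SP.Diff

/-!
# Exact blocks
-/

set_option autoImplicit false
set_option linter.unusedSectionVars false

namespace Pool.Agent.H9x.PE

open Finset Pool.Agent.NPC Pool.Agent.H620R2.Gauge Pool.Agent.H676 H568R2 Pool.Agent.H591R3.PHG
open Pool.Agent.H9x.RT (lev lv)
open Pool.Agent.H9x.SP (Blk Fools LB sval one_le_LB lv_comb exists_sipB dtr_comb)
open Pool.Agent.H9x.PN (Kh swB)
open Pool.Agent.K7x.EQ (us us_eq Yes No Iu m2e va yes_enc no_enc enc_cls sum_fun_sum dl)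
open Pool.Agent.K7x.ER (Cls exists_gen)

/-- substituting constants and coordinates -/
theorem dtr_subst {I J : Type} [Fintype I] [DecidableEq I] [Fintype J] [DecidableEq J] :
    ∀ (t : ℕ) (f : (I → Bool) → Bool), DTr t f → ∀ φ : (J → Bool) → (I → Bool),
      (∀ i, (∃ c, ∀ z, φ z i = c) ∨ ∃ j, ∀ z, φ z i = z j) → DTr t (fun z => f (φ z))
  | 0, f, ⟨c, hc⟩, φ, _ => ⟨c, fun z => hc _⟩
  | t + 1, f, h, φ, hφ => by
    rcases h with ⟨c, hc⟩ | ⟨i, hi⟩
    · exact Or.inl ⟨c, fun z => hc _⟩
    · rcases hφ i with ⟨c, hc⟩ | ⟨j, hj⟩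
      · have h1 := dtr_subst t _ (hi c) φ hφ
        have h2 : (fun z => f (Function.update (φ z) i c)) = fun z => f (φ z) := by
          funext z
          rw [← hc z, Function.update_eq_self]
        rw [h2] at h1
        exact h1.mono (Nat.le_succ t)
      · refine Or.inr ⟨j, fun b => ?_⟩
        have h1 := dtr_subst t _ (hi b) (fun z => φ (Function.update z j b)) fun i' => by
          rcases hφ i' with ⟨c, hc⟩ | ⟨j', hj'⟩
          · exact Or.inl ⟨c, fun z => hc _⟩
          · by_cases hjj : j' = j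
            · subst hjj
              exact Or.inl ⟨b, fun z => by rw [hj', Function.update_self]⟩
            · exact Or.inr ⟨j', fun z => by rw [hj', Function.update_of_ne hjj]⟩
        refine (congrArg (DTr t) ?_).mp h1
        funext z
        have h2 : φ (Function.update z j b) i = b := by rw [hj, Function.update_self]
        have h3 : Function.update (φ (Function.update z j b)) i (φ (Function.update z j b) i) =
            φ (Function.update z j b) := Function.update_eq_self _ _
        rw [h2] at h3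
        exact congrArg f h3

open Classical in
/-- a random restriction makes a combination of alternating quantifiers shallow -/
theorem dtr_ex {I : Type} [Fintype I] [DecidableEq I] {X : Type} [Fintype X] [DecidableEq X]
    {t : ℕ} (ht : 1 ≤ t) (m k ℓ : ℕ) (F : List Bool → (I → Bool) → Bool)
    (hF : ∀ y : List Bool, y.length ≤ ℓ + k * (2 * m + 1) → DTr t (F y)) (y : X → List Bool)
    (hy : ∀ j, (y j).length ≤ ℓ) (b : Bool) (Ψ : (X → Bool) → Bool) (hX : Fintype.card X ≤ 1) :
    Ex (wq ((1 / (24 * (t : ℝ))) ^ k)) (fun ρ : Restr I =>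
      if ¬ DTr t (rs (fun z => Ψ (fun j => QF m F k b (y j) z)) ρ) then (1 : ℝ) else 0) ≤
      k * 2 ^ (ℓ + k * (2 * m + 1) + 2) * (1 / 2) ^ (t + 1) := by
  have htR : (1 : ℝ) ≤ t := by exact_mod_cast ht
  set q : ℝ := 1 / (24 * t) with hq
  have h0 : 0 < q := by positivity
  have h1 : q ≤ 1 / 3 := by
    rw [hq]
    refine one_div_le_one_div_of_le (by norm_num) (by linarith)
  have hhalf : 12 * (t : ℝ) * q = 1 / 2 := by
    rw [hq]
    field_simp
    norm_num
  have hsw := switch_alt ht h0.le h1 m F k ℓ hF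
  rw [hhalf] at hsw
  have hw : ∀ a, 0 ≤ wq (q ^ k) a :=
    wq_nonneg (pow_nonneg h0.le k) (pow_le_one₀ h0.le (by linarith))
  refine (Ex_mono hw fun ρ => ?_).trans hsw
  by_cases hg : ∀ y : List Bool, y.length ≤ ℓ → ∀ b, DTr t (rs (QF m F k b y) ρ)
  · rw [if_neg (not_not.2 hg), if_neg]
    rw [not_not]
    exact (dtr_comb (g := fun j => rs (QF m F k b (y j)) ρ) (fun j => hg (y j) (hy j) b) Ψ).mono
      (by nlinarith)
  · rw [if_pos hg]
    split_ifs <;> norm_num

/-- the sum does not depend on the proof of finiteness -/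
theorem sum_inst {α : Type} (i j : Fintype α) (f : α → ℝ) :
    @Finset.sum α ℝ _ (@Finset.univ α i) f = @Finset.sum α ℝ _ (@Finset.univ α j) f := by
  have h : i = j := Subsingleton.elim _ _
  subst h
  rfl

/-- sums with one further bit -/
theorem sum_one {I : Type} [Fintype I] [DecidableEq I] (P : (I → Bool) → ℝ)
    (G : (I ⊕ Unit → Bool) → ℝ) :
    ∑ z : I ⊕ Unit → Bool, (if z (.inr ()) = true then P (fun i => z (.inl i)) else 0) * G z =
      ∑ a, P a * G (Sum.elim a fun _ => true) := by
  rw [sum_fun_sum]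
  refine sum_congr rfl fun a _ => ?_
  rw [Fintype.sum_eq_single (fun _ : Unit => true) fun b hb => ?_]
  · show (if true = true then P a else 0) * _ = _
    rw [if_pos rfl]
  · have h1 : b () ≠ true := fun h => hb (funext fun x => by cases x; exact h)
    show (if b () = true then P a else 0) * _ = 0
    rw [if_neg h1, zero_mul]

open Classical in
/-- the content; the further bit is used at the positions where the content is always `true` -/
noncomputable def encX (s : ℕ) (z : Iu (us s) ⊕ Unit → Bool) (v : List Bool) : Bool :=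
  if ∀ z₀ : Iu (us s) → Bool, K7x.EQ.enc (us s) z₀ v = true then z (.inr ()) else
    K7x.EQ.enc (us s) (fun i => z (.inl i)) v

theorem encX_cls (s : ℕ) (v : List Bool) : (∃ i, ∀ z, encX s z v = z i) ∨ ∀ z, encX s z v = false := by
  rcases enc_cls (us s) v with ⟨i, hi⟩ | ⟨c, hc⟩
  · left
    refine ⟨.inl i, fun z => ?_⟩
    unfold encX
    rw [if_neg, hi]
    intro h
    have := h fun _ => false
    rw [hi] at this
    exact Bool.false_ne_true this
  · cases c
    · right
      intro z
      unfold encX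
      rw [if_neg, hc]
      intro h
      have := h fun _ => false
      rw [hc] at this
      exact Bool.false_ne_true this
    · left
      refine ⟨.inr (), fun z => ?_⟩
      unfold encX
      rw [if_pos hc]

theorem encX_on (s : ℕ) (z : Iu (us s) ⊕ Unit → Bool) (hz : z (.inr ()) = true) :
    encX s z = K7x.EQ.enc (us s) fun i => z (.inl i) := by
  funext v
  unfold encX
  split_ifs with h
  · rw [hz, h]
  · rfl

/-- the block given by two distributions -/
noncomputable def mkE (s : ℕ) (P Q : (Iu (us s) → Bool) → ℝ)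
    (hP0 : ∀ a, 0 ≤ P a) (hP1 : ∑ a, P a = 1) (hQ0 : ∀ a, 0 ≤ Q a) (hQ1 : ∑ a, Q a = 1)
    (hP : ∀ a, P a ≠ 0 → va (us s) a = 1) (hQ : ∀ a, Q a ≠ 0 → va (us s) a = 0) : Blk where
  I := Iu (us s) ⊕ Unit
  fI := inferInstance
  dI := Classical.decEq _
  P := fun t z => if z (.inr ()) = true then (if t = true then P else Q) (fun i => z (.inl i))
    else 0
  nn := fun t z => by
    split_ifs
    · exact hP0 _
    · exact hQ0 _
    · exact le_rfl
  s1 := fun t => by
    classical
    have h1 := sum_one (if t = true then P else Q) (fun _ : Iu (us s) ⊕ Unit → Bool => (1 : ℝ))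
    simp only [mul_one] at h1
    have h2 : ∑ a, (if t = true then P else Q) a = 1 := by
      split_ifs
      · exact hP1
      · exact hQ1
    rw [h2] at h1
    exact (sum_inst _ _ _).trans h1
  enc := encX s
  cls := encX_cls s
  good := fun t V => if t = true then Yes s V else No s V
  sup := fun t z hz => by
    by_cases h1 : z (.inr ()) = true
    · simp only [if_pos h1] at hz
      rw [encX_on s z h1]
      cases t
      · simp only [Bool.false_eq_true, if_false] at hz ⊢
        exact no_enc (hQ _ hz)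
      · simp only [if_true] at hz ⊢
        exact yes_enc (hP _ hz)
    · simp only [if_neg h1] at hz
      exact absurd rfl hz

/-- **BLKE.** -/
theorem exists_blkE (s u Λ k : ℕ) : ∃ B : Blk,
    (∀ V, B.good true V ↔ Yes s V) ∧ (∀ V, B.good false V ↔ No s V) ∧
    (Λ + 32 * s + 168 + k ≤ 2 ^ (2 * u) → 32 * LB u 1 k ≤ 2 ^ (4 * us s) →
      Fools B k u 1 Λ (107 * LB u 1 k / 8 ^ s)) := by
  classical
  have ht1 : 1 ≤ 2 ^ (2 * u) := Nat.one_le_two_pow
  have htR : (1 : ℝ) ≤ ((2 ^ (2 * u) : ℕ) : ℝ) := by exact_mod_cast ht1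
  set t : ℕ := 2 ^ (2 * u) with ht
  have hp0 : 0 < (1 / (24 * (t : ℝ))) ^ k := by positivity
  have hp1 : (1 / (24 * (t : ℝ))) ^ k ≤ 1 := by
    refine pow_le_one₀ (by positivity) ?_
    rw [div_le_one (by positivity)]
    linarith
  have hLB : LB u 1 k = ((t : ℝ) ^ 2 + 1) * (24 * (t : ℝ)) ^ (2 * k) := by
    unfold LB
    rw [Nat.mul_one]
  have hLp : (1 + (t : ℝ)) ^ 2 ≤ 2 * LB u 1 k * (1 / (24 * (t : ℝ))) ^ k := by
    have h1 : 2 * LB u 1 k * (1 / (24 * (t : ℝ))) ^ k = 2 * ((t : ℝ) ^ 2 + 1) * (24 * (t : ℝ)) ^ k := by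
      rw [hLB, two_mul k, pow_add, one_div, inv_pow]
      have : (24 * (t : ℝ)) ^ k ≠ 0 := by positivity
      field_simp
    rw [h1]
    have h2 : (1 : ℝ) ≤ (24 * (t : ℝ)) ^ k := one_le_pow₀ (by linarith)
    have h3 : (1 + (t : ℝ)) ^ 2 ≤ 2 * ((t : ℝ) ^ 2 + 1) := by nlinarith [sq_nonneg ((t : ℝ) - 1)]
    exact h3.trans (le_mul_of_one_le_right (by positivity) h2)
  obtain ⟨P, Q, hP0, hP1, hPG, hQ0, hQ1, hQG, hcl⟩ := exists_gen hp0 hp1 (one_le_LB u 1 k) hLp s
  refine ⟨mkE s P Q hP0 hP1 hQ0 hQ1 hPG hQG, fun V => ?_, fun V => ?_,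
    fun hΛ hL X _ _ hX m ℓ F hℓ hF y hy b Ψ => ?_⟩
  · show (if true = true then Yes s V else No s V) ↔ _
    rw [if_pos rfl]
  · show (if false = true then Yes s V else No s V) ↔ _
    rw [if_neg (by simp)]
  · set F' : List Bool → (Iu (us s) → Bool) → Bool := fun y z =>
      F y (Sum.elim z fun _ => true) with hF'
    have hF1 : ∀ y : List Bool, y.length ≤ ℓ + k * (2 * m + 1) → DTr t (F' y) := fun y hy =>
      dtr_subst t (F y) (hF y hy) (fun z => Sum.elim z fun _ => true) fun i => by
        rcases i with i | i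
        · exact Or.inr ⟨i, fun z => rfl⟩
        · exact Or.inl ⟨true, fun z => rfl⟩
    set f₀ : (Iu (us s) → Bool) → Bool := fun z => Ψ (fun j => QF m F' k b (y j) z) with hf₀
    have hsum : ∀ P' : (Iu (us s) → Bool) → ℝ, ∑ z : Iu (us s) ⊕ Unit → Bool,
        (if z (.inr ()) = true then P' (fun i => z (.inl i)) else 0) *
          br (fun z => Ψ (fun j => QF m F k b (y j) z)) z = ∑ z, P' z * br f₀ z := by
      intro P'
      have h0 := sum_one P' (fun z => br (fun z => Ψ (fun j => QF m F k b (y j) z)) z)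
      refine ((sum_inst _ _ _).trans h0).trans ?_
      refine sum_congr rfl fun z _ => ?_
      congr 1
      have h1 : (Ψ fun j => QF m F k b (y j) (Sum.elim z fun _ => true)) = f₀ z := by
        show _ = Ψ _
        congr 1
        funext j
        exact QF_comp m F (fun z => Sum.elim z fun _ => true) k b (y j) z
      show (if (Ψ fun j => QF m F k b (y j) (Sum.elim z fun _ => true)) = true then (1 : ℝ) else 0) =
        if f₀ z = true then 1 else 0
      rw [h1]
    have hmain : |∑ z, P z * br f₀ z - ∑ z, Q z * br f₀ z| ≤ dl s (LB u 1 k) := by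
      have hexp : ∀ N : ℕ, k + (Λ + 2) + N ≤ t + 1 →
          k * 2 ^ (ℓ + k * (2 * m + 1) + 2) * 2 ^ N ≤ 2 ^ (t + 1) := by
        intro N hN
        calc k * 2 ^ (ℓ + k * (2 * m + 1) + 2) * 2 ^ N
            ≤ 2 ^ k * 2 ^ (Λ + 2) * 2 ^ N :=
              Nat.mul_le_mul_right _ (Nat.mul_le_mul Nat.lt_two_pow_self.le
                (Nat.pow_le_pow_right (by norm_num) (by omega)))
          _ = 2 ^ (k + (Λ + 2) + N) := by rw [← pow_add, ← pow_add]
          _ ≤ 2 ^ (t + 1) := Nat.pow_le_pow_right (by norm_num) hN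
      refine hcl hL f₀ (k * 2 ^ (ℓ + k * (2 * m + 1) + 2) * (1 / 2) ^ (t + 1)) ?_ (fun c ρ => ?_)
        (fun a c => ?_) (fun a b' => ?_)
      · have h1 := hexp (4 * us s) (by rw [us_eq]; omega)
        have h2 : (k : ℝ) * 2 ^ (ℓ + k * (2 * m + 1) + 2) * 2 ^ (4 * us s) ≤ 2 ^ (t + 1) := by
          exact_mod_cast h1
        rw [one_div_pow, mul_one_div, div_le_div_iff₀ (by positivity) (by positivity), one_mul]
        exact h2
      · have hcard : Fintype.card ((Fin (8 * us s * 2) → Bool) ⊕ (Fin (8 * us s * 2) → Bool)) =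
            2 ^ (8 * us s * 2 + 1) := by
          rw [Fintype.card_sum]
          simp only [Fintype.card_fun, Fintype.card_bool, Fintype.card_fin]
          rw [pow_succ]
          ring
        have h1 := lv_comb (I := (Fin (8 * us s * 2) → Bool) ⊕ (Fin (8 * us s * 2) → Bool))
          (t := t) ht1 m k ℓ (fun y a => F' y (Sum.elim a c))
          (fun y hy => dtr_subst t (F' y) (hF1 y hy) (fun a => Sum.elim a c) fun i => by
            rcases i with i | i
            · exact Or.inr ⟨i, fun z => rfl⟩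
            · exact Or.inl ⟨c i, fun z => rfl⟩) y hy b Ψ (by
              rw [hcard, ← pow_mul]
              exact hexp _ (by rw [us_eq]; omega)) ρ
        have h2 : (fun a : (Fin (8 * us s * 2) → Bool) ⊕ (Fin (8 * us s * 2) → Bool) → Bool =>
            Ψ (fun j => QF m (fun y a => F' y (Sum.elim a c)) k b (y j) a)) =
            fun a => f₀ (Sum.elim a c) := by
          funext a
          show Ψ _ = Ψ _
          congr 1
          funext j
          exact (QF_comp m F' (fun a => Sum.elim a c) k b (y j) a).symm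
        rw [h2] at h1
        refine h1.trans ?_
        rw [hLB]
        refine mul_le_mul_of_nonneg_right ?_ (by positivity)
        have h3 : ((t * Fintype.card X : ℕ) : ℝ) ≤ t := by
          exact_mod_cast (Nat.mul_le_mul_left t hX).trans (le_of_eq (Nat.mul_one t))
        have h4 : (0 : ℝ) ≤ ((t * Fintype.card X : ℕ) : ℝ) := Nat.cast_nonneg _
        nlinarith
      · have h1 := dtr_ex (I := (Fin (8 * us s * 2) → Bool) × (Fin (8 * us s) → Bool))
          (t := t) ht1 m k ℓ (fun y z => F' y (Sum.elim a (Sum.elim z c)))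
          (fun y hy => dtr_subst t (F' y) (hF1 y hy) (fun z => Sum.elim a (Sum.elim z c))
            fun i => by
              rcases i with i | (i | i)
              · exact Or.inl ⟨a i, fun z => rfl⟩
              · exact Or.inr ⟨i, fun z => rfl⟩
              · exact Or.inl ⟨c i, fun z => rfl⟩) y hy b Ψ hX
        have h2 : (fun z : (Fin (8 * us s * 2) → Bool) × (Fin (8 * us s) → Bool) → Bool =>
            Ψ (fun j => QF m (fun y z => F' y (Sum.elim a (Sum.elim z c))) k b (y j) z)) =
            fun z => f₀ (Sum.elim a (Sum.elim z c)) := by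
          funext z
          show Ψ _ = Ψ _
          congr 1
          funext j
          exact (QF_comp m F' (fun z => Sum.elim a (Sum.elim z c)) k b (y j) z).symm
        rw [h2] at h1
        exact h1
      · have h1 := dtr_ex (I := Fin (m2e (us s)) → Bool)
          (t := t) ht1 m k ℓ (fun y z => F' y (Sum.elim a (Sum.elim b' z)))
          (fun y hy => dtr_subst t (F' y) (hF1 y hy) (fun z => Sum.elim a (Sum.elim b' z))
            fun i => by
              rcases i with i | (i | i)
              · exact Or.inl ⟨a i, fun z => rfl⟩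
              · exact Or.inl ⟨b' i, fun z => rfl⟩
              · exact Or.inr ⟨i, fun z => rfl⟩) y hy b Ψ hX
        have h2 : (fun z : (Fin (m2e (us s)) → Bool) → Bool =>
            Ψ (fun j => QF m (fun y z => F' y (Sum.elim a (Sum.elim b' z))) k b (y j) z)) =
            fun z => f₀ (Sum.elim a (Sum.elim b' z)) := by
          funext z
          show Ψ _ = Ψ _
          congr 1
          funext j
          exact (QF_comp m F' (fun z => Sum.elim a (Sum.elim b' z)) k b (y j) z).symm
        rw [h2] at h1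
        exact h1
    have hPt : ∑ z, (mkE s P Q hP0 hP1 hQ0 hQ1 hPG hQG).P true z *
        br (fun z => Ψ (fun j => QF m F k b (y j) z)) z = ∑ z, P z * br f₀ z := hsum P
    have hQt : ∑ z, (mkE s P Q hP0 hP1 hQ0 hQ1 hPG hQG).P false z *
        br (fun z => Ψ (fun j => QF m F k b (y j) z)) z = ∑ z, Q z * br f₀ z := hsum Q
    rw [hPt, hQt]
    refine hmain.trans ?_
    unfold dl
    have h8 : (0 : ℝ) < 8 ^ s := by positivity
    refine div_le_div_of_nonneg_right ?_ h8.le
    have := one_le_LB u 1 k
    linarith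

/-- the contents which fit to the truth value `t` of the code `c` -/
def GE (kk : ℕ) (S : ℕ → Polynomial ℕ) (c : ℕ × List Bool) (t : Bool) (V : List Bool → Bool) :
    Prop :=
  if c.1 = 0 then sval (lev S c) kk V = t else if t = true then Yes (lev S c) V
    else No (lev S c) V

theorem exists_bkE {k : ℕ} {ma : ℕ → Alg × Polynomial ℕ} {S R : ℕ → Polynomial ℕ}
    (hK : Kh k ma S R) (kk k' u Λ : ℕ) : ∃ Bk : ℕ × List Bool → Blk,
    (∀ c t V, (Bk c).good t V ↔ GE kk S c t V) ∧
    ∀ c : ℕ × List Bool, ¬ c.1 = 0 → Λ + 32 * lev S c + 168 + k' ≤ 2 ^ (2 * u) →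
      32 * LB u 1 k' ≤ 2 ^ (4 * us (lev S c)) →
      Fools (Bk c) k' u 1 Λ (107 * LB u 1 k' / 8 ^ (lev S c)) := by
  have h5 : ∀ c : ℕ × List Bool, 5 ≤ lev S c := fun c => by
    have := hK.big c.1 c.2.length
    show 5 ≤ (S c.1).eval c.2.length
    omega
  choose BF hBF1 hBF2 hBF3 using fun s : ℕ => exists_blkE s u Λ k'
  choose BS hBS1 hBS2 using fun c : ℕ × List Bool => exists_sipB (h5 c) kk
  set Bk : ℕ × List Bool → Blk := fun c : ℕ × List Bool =>
    if c.1 = 0 then swB (BS c) else BF (lev S c) with hBk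
  have hBz : ∀ c : ℕ × List Bool, c.1 = 0 → Bk c = swB (BS c) := fun c h => if_pos h
  have hBo : ∀ c : ℕ × List Bool, ¬ c.1 = 0 → Bk c = BF (lev S c) := fun c h => if_neg h
  refine ⟨Bk, fun c t V => ?_, fun c h hΛ hL => ?_⟩
  · unfold GE
    by_cases h : c.1 = 0
    · rw [hBz c h, if_pos h]
      show (BS c).good (!t) V ↔ _
      rw [hBS1 c (!t) V, Bool.not_not]
    · rw [hBo c h, if_neg h]
      cases t
      · rw [if_neg (by simp)]
        exact hBF2 _ V
      · rw [if_pos rfl]
        exact hBF1 _ V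
  · rw [hBo c h]
    exact hBF3 _ hΛ hL

end Pool.Agent.H9x.PE
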