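import Pool.Agent.H9x.PE.Sys
import Pool.Agent.H9x.PN.DecQ
import Pool.Agent.K7x.ER.World

/-!
# Languages of the level `Σ_k` in exact quantum polynomial time
-/

set_option autoImplicit false
set_option linter.unusedSectionVars false
set_option linter.unusedVariables false

namespace Pool.Agent.H9x.PE

open Finset Pool.Agent.NPC Pool.Agent.H622R2 Pool.Agent.H620R2.Gauge Pool.Agent.H622R2.Exp
  Pool.Agent.TH678.ETH Pool.Agent.TH678.SETH Pool.Agent.TH678.RS Pool.Agent.H9x.Q Filter
  Pool.Agent.H591R3.PHG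

open Pool.Agent.H9x.V1 (poly_rep poly_cS)
open Pool.Agent.H9x.RT (lev)
open Pool.Agent.H9x.SP (Sys Dt orc orc_on orc_off tv)
open Pool.Agent.H9x.SN (er er_false)
open Pool.Agent.H9x.PN (Kh QuH quH_iff adH adH_zero adH_pos)
open Pool.Agent.K7x.EQ (us us_eq Iu m2e Yes No LA IsEQP isEQP_of Pj Pm Pk Pj_eval
  Pm_eval Pk_eval va Rp KK pos Cn m1 m2 Am Ig)

variable {kk k : ℕ} {ma : ℕ → Alg × Polynomial ℕ} {S R : ℕ → Polynomial ℕ}

/-- the questions about the zero string -/
theorem base_ZE (D : Dt (sysE kk k ma S).K) {K : ℕ} (u : Fin K → Bool) :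
    er (orc (sysE kk k ma S) D) ([false, false, true] ++ List.ofFn u) = true ↔
      u = fun _ => false := by
  have h1 : [false, false, true] ++ List.ofFn u = false :: false :: true :: List.ofFn u := rfl
  rw [h1, er_false, orc_off D (fun c w _ h => by
    by_cases he : c.1 = 0
    · rw [show (sysE kk k ma S).adr c w = adH kk S c w from rfl, adH_zero he] at h
      simp at h
    · rw [show (sysE kk k ma S).adr c w = adH kk S c w from rfl, adH_pos he] at h
      simp at h)]
  show decide (∀ b ∈ List.ofFn u, b = false) = true ↔ _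
  rw [decide_eq_true_iff]
  constructor
  · intro h2
    funext t
    exact h2 _ (List.mem_ofFn.2 ⟨t, rfl⟩)
  · rintro rfl b hb
    obtain ⟨t, rfl⟩ := List.mem_ofFn.1 hb
    rfl

/-- **A criterion for the membership in exact quantum polynomial time.** -/
theorem eqp_of_contE {D : Dt (sysE kk k ma S).K} {L : Set (List Bool)}
    (pre : List Bool → List Bool)
    (p : Polynomial ℕ) (hpre : Poly fun u : List Bool => pre u)
    (hpre' : ∀ u v : List Bool, u.length = v.length → pre u = pre v)
    {c : List Bool → List Bool → Bool}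
    (hc : ∀ x w : List Bool, w.length = LA (p.eval x.length) →
      er (orc (sysE kk k ma S) D) (pre x ++ (x ++ w)) = c x w)
    (hL : ∀ x : List Bool, (x ∈ L → Yes (p.eval x.length) (c x)) ∧
      (x ∉ L → No (p.eval x.length) (c x))) :
    IsEQP (er (orc (sysE kk k ma S) D)) L := by
  refine isEQP_of pre (fun _ => [false, false, true]) (Pj p) (Pj p) (Pm p) (Pk p) hpre
    (NPC.Poly.const _) hpre' (fun _ _ _ => rfl) (fun x u => base_ZE D u) fun x => ?_
  have key : ∀ v : ℝ, (∃ z, Rp (us (p.eval x.length)) (c x) z ∧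
      va (us (p.eval x.length)) z = v) →
      ∃ z : Ig ((Pj p).eval x.length * 2) ((Pj p).eval x.length) ((Pm p).eval x.length) → Bool,
      (∀ a b' (u : Fin (KK ((Pj p).eval x.length * 2) ((Pj p).eval x.length)
        ((Pm p).eval x.length)) → Bool),
        er (orc (sysE kk k ma S) D) (pre x ++ (x ++ (a :: b' :: List.ofFn u))) =
          Cn z a b' (u ∘ pos _ _ _)) ∧
      Am ((Pk p).eval x.length) ((Pool.Agent.K7x.EQ.fo z + m1 z) / 2) + m2 z = v := by
    rintro v ⟨z, hz, hz'⟩
    rw [Pj_eval, Pm_eval, Pk_eval]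
    refine ⟨z, fun a b' u => ?_, hz'⟩
    rw [hc x (a :: b' :: List.ofFn u) (by
      rw [List.length_cons, List.length_cons, List.length_ofFn]
      unfold LA
      omega)]
    exact hz a b' u
  by_cases hx : x ∈ L
  · obtain ⟨z, h1, h2⟩ := key 1 ((hL x).1 hx)
    exact ⟨z, h1, fun _ => h2, fun h3 => absurd hx h3⟩
  · obtain ⟨z, h1, h2⟩ := key 0 ((hL x).2 hx)
    exact ⟨z, h1, fun h3 => absurd h3 hx, fun _ => h2⟩

/-- **DECE.** -/
theorem eqp_of_sigE (hma : Function.Surjective ma) (hK : Kh k ma S R)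
    {D : Dt (sysE kk k ma S).K}
    (hyes : ∀ c : ℕ × List Bool, ¬ c.1 = 0 → Yes (lev S c) (D.bl c true))
    (hno : ∀ c : ℕ × List Bool, ¬ c.1 = 0 → No (lev S c) (D.bl c false))
    {L : Set (List Bool)} (hL : IsSig (er (orc (sysE kk k ma S) D)) k L) :
    IsEQP (er (orc (sysE kk k ma S) D)) L := by
  obtain ⟨V, p, ⟨M, hM⟩, hx⟩ := hL
  obtain ⟨i, hi⟩ := hma (M, p)
  have hct : ∀ x : List Bool, tv (sysE kk k ma S) (i + 1, x) (orc (sysE kk k ma S) D) = true ↔
      x ∈ L := by
    intro x
    rw [tv_pos hK _ (c := (i + 1, x)) (Nat.succ_ne_zero i)]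
    show QuH k ma i ((R i).eval x.length) (er (orc (sysE kk k ma S) D)) x ↔ _
    rw [quH_iff hK le_rfl, hx x, hi]
    have h5 : (fun y => (M.out (er (orc (sysE kk k ma S) D)) y).getD []) = V := by
      funext y
      rw [hM y]
      rfl
    show Quant (p.eval x.length) (fun y => (M.out (er (orc (sysE kk k ma S) D)) y).getD []) k
      true x ↔ _
    rw [h5]
  have hlen : UPoly (fun u : List Bool => u.length) := UPoly.length Poly.id
  have hSe : UPoly (fun u : List Bool => (S (i + 1)).eval u.length) := hlen.eval (S (i + 1))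
  refine eqp_of_contE (fun u => false :: true :: cS (i + 1) ((S (i + 1)).eval u.length) [])
    (S (i + 1)) ?_ (fun u v huv => by simp only [huv]) (c := fun x w => D.bl (i + 1, x)
      (tv (sysE kk k ma S) (i + 1, x) (orc (sysE kk k ma S) D)) w) (fun x w hw => ?_)
    fun x => ?_
  · exact Poly.cons (NPC.Poly.const _) (Poly.cons (NPC.Poly.const _)
      (poly_cS (i + 1) hSe (NPC.Poly.const [])))
  · have h1 : (false :: true :: cS (i + 1) ((S (i + 1)).eval x.length) []) ++ (x ++ w) =
        (sysE kk k ma S).adr (i + 1, x) w := by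
      show _ = adH kk S (i + 1, x) w
      rw [adH_pos (c := (i + 1, x)) (Nat.succ_ne_zero i)]
      show _ = false :: true :: cS (i + 1) ((S (i + 1)).eval x.length) (x ++ w)
      simp [cS, pr]
    have h2 : er (orc (sysE kk k ma S) D) ((false :: true ::
        cS (i + 1) ((S (i + 1)).eval x.length) []) ++ (x ++ w)) =
        orc (sysE kk k ma S) D ((false :: true ::
        cS (i + 1) ((S (i + 1)).eval x.length) []) ++ (x ++ w)) := rfl
    rw [h2, h1, orc_on D (show (sysE kk k ma S).ok (i + 1, x) w from fun _ => hw)]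
  · constructor
    · intro h
      show Yes (lev S (i + 1, x)) (D.bl (i + 1, x) _)
      rw [(hct x).2 h]
      exact hyes (i + 1, x) (Nat.succ_ne_zero i)
    · intro h
      have h2 : tv (sysE kk k ma S) (i + 1, x) (orc (sysE kk k ma S) D) = false := by
        rw [← Bool.not_eq_true]
        exact fun h3 => h ((hct x).1 h3)
      show No (lev S (i + 1, x)) (D.bl (i + 1, x) _)
      rw [h2]
      exact hno (i + 1, x) (Nat.succ_ne_zero i)

end Pool.Agent.H9x.PE
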