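import Pool.Agent.H9x.PE.Sys
import Pool.Agent.H9x.PN.DecS2

/-!
# The existence of a hidden bit, at a place which fits to the input, is decided at a sharp level
(piece DECS3 of project PE)
-/

set_option autoImplicit false
set_option linter.unusedSectionVars false
set_option linter.unusedVariables false

namespace Pool.Agent.H9x.PE

open Finset Pool.Agent.NPC Pool.Agent.H622R2 Pool.Agent.H620R2.Gauge Pool.Agent.H622R2.Exp
  Pool.Agent.TH678.ETH Pool.Agent.TH678.SETH Pool.Agent.TH678.RS Pool.Agent.H9x.Q Filter
  Pool.Agent.H591R3.PHG

open Pool.Agent.H9x.V1 (poly_rep poly_cS)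
open Pool.Agent.H9x.RT (lev)
open Pool.Agent.H9x.SP (Sys Dt J orc base orc_on orc_off orc_free orc_loc tv tv_congr tv_true
  tv_false tv_iff enc_inj2 Blk Good sval rep quant_rep poly_repl mem_lang_fold fold_sval enc_app)
open Pool.Agent.H9x.SN (er er_congr er_off er_false nam nam_inj nam_len)
open Pool.Agent.H9x.PN (Kh adH adH_zero)

/-- the strings have a common one -/
def hit (x y : List Bool) : Bool := decide ((true, true) ∈ x.zip y)

theorem poly_hit : Poly fun p : List Bool × List Bool => hit p.1 p.2 := by
  have h1 : Poly (fun p : List Bool × List Bool => p.1.zip p.2) :=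
    Poly.zip (Poly.fst Poly.id) (Poly.snd Poly.id)
  have h2 : Poly (fun p : List Bool × List Bool =>
      (p.1.zip p.2).any (fun z : Bool × Bool => z.1 && z.2)) :=
    Poly.any (p := fun _ z => z.1 && z.2) h1
      (Poly.and (Poly.fst (Poly.snd Poly.id)) (Poly.snd (Poly.snd Poly.id)))
  refine h2.congr fun p => ?_
  rw [Bool.eq_iff_iff, List.any_eq_true]
  unfold hit
  rw [decide_eq_true_iff]
  constructor
  · rintro ⟨⟨a, b⟩, hz, h⟩
    simp only [Bool.and_eq_true] at h
    obtain ⟨rfl, rfl⟩ := h
    exact hz
  · intro h
    exact ⟨_, h, rfl⟩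

/-- the innermost string of a nested string -/
def inn : ℕ → List Bool → List Bool
  | 0, u => u
  | j + 1, u => inn j (unpair u).2

theorem poly_inn : ∀ j : ℕ, Poly (inn j)
  | 0 => Poly.id
  | j + 1 => (poly_inn j).comp (Poly.snd poly_unpair)

/-- a condition about the innermost string moves outside of the quantifiers -/
theorem quant_inn (V : List Bool → List Bool) (g : List Bool → Bool) (m K : ℕ) :
    ∀ (j i : ℕ) (b : Bool) (u : List Bool), i + j = K →
      (Quant m (fun y => bif g (inn K y) then V y else [false]) j b u ↔
        g (inn i u) = true ∧ Quant m V j b u) := by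
  intro j
  induction j with
  | zero =>
    intro i b u hi
    have : i = K := by omega
    subst this
    show (bif g (inn i u) then V u else [false]) = [true] ↔ g (inn i u) = true ∧ V u = [true]
    cases g (inn i u) <;> simp
  | succ j ih =>
    intro i b u hi
    have key : ∀ (b' : Bool) (w : List Bool),
        (Quant m (fun y => bif g (inn K y) then V y else [false]) j b' (pairBits w u) ↔
          g (inn i u) = true ∧ Quant m V j b' (pairBits w u)) := by
      intro b' w
      rw [ih (i + 1) b' (pairBits w u) (by omega)]
      simp only [inn, unpair_pairBits]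
    cases b with
    | true =>
      simp only [Quant]
      constructor
      · rintro ⟨w, hw, h⟩
        rw [key] at h
        exact ⟨h.1, w, hw, h.2⟩
      · rintro ⟨h1, w, hw, h⟩
        exact ⟨w, hw, (key _ _).2 ⟨h1, h⟩⟩
    | false =>
      simp only [Quant]
      constructor
      · intro h
        refine ⟨((key _ _).1 (h [] (Nat.zero_le _))).1, fun w hw => ?_⟩
        exact ((key _ _).1 (h w hw)).2
      · rintro ⟨h1, h⟩ w hw
        exact (key _ _).2 ⟨h1, h w hw⟩

/-- **An existential quantifier in front of the complement of the language of trees, and of a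
polynomial-time condition about the witness and the input.** -/
theorem isSig_ex3 {A : Oracle} {k : ℕ} {φ : List Bool → Prop} (pre : List Bool)
    (r : List Bool → List Bool) (hr : Poly r) (p : Polynomial ℕ)
    (hp : ∀ x, (r x).length ≤ p.eval x.length)
    (hL : ∀ x, φ x ↔ r x ∉ lang k (fun q => A (pre ++ q)))
    (ψ : List Bool → List Bool → Bool) (hψ : Poly fun p : List Bool × List Bool => ψ p.1 p.2) :
    IsSig A (k + 2) {y | ∃ x : List Bool, x.length = y.length ∧ φ x ∧ ψ x y = true} := by
  set B : Oracle := fun q => A (pre ++ q) with hB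
  set e : Bool := !(bot false (k + 1)) with he
  set r' : List Bool → List Bool := fun z =>
    r (LangSig.fit (unpair z).2 (unpair z).1) with hr'
  set g : List Bool → Bool := fun z =>
    ψ (LangSig.fit (unpair z).2 (unpair z).1) (unpair z).2 with hg
  have hf1 : Poly (fun z : List Bool => (unpair z).1) := Poly.fst poly_unpair
  have hf2 : Poly (fun z : List Bool => (unpair z).2) := Poly.snd poly_unpair
  have hpr' : Poly r' := hr.comp (LangSig.poly_fit hf2 hf1)
  have hpg : Poly g := hψ.comp (Poly.pair (LangSig.poly_fit hf2 hf1) hf2)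
  refine ⟨fun y => bif g (inn (k + 1) y) then LangSig.Ver (k + 1) e B (rep (k + 1) r' y)
    else [false], p + Polynomial.X, ?_, fun y => ?_⟩
  · have h1 : Poly (fun q : List Bool × List Bool => q.2.all (fun b => !b)) :=
      Poly.all (p := fun _ b => !b) (Poly.snd Poly.id) (Poly.not (Poly.snd Poly.id))
    have h2 : Poly (fun q : List Bool × List Bool => bif g (inn (k + 1) q.1) then
        [decide (q.2.all (fun b => !b) = e)] else [false]) :=
      Poly.cond (hpg.comp ((poly_inn (k + 1)).comp (Poly.fst Poly.id)))
        (Poly.cons (Poly.decide_eq h1 (NPC.Poly.const e)) (NPC.Poly.const []))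
        (NPC.Poly.const [false])
    have h3 : Poly (fun y : List Bool => (LangSig.Qs (k + 1) (rep (k + 1) r' y)).map
        (fun q => pre ++ q)) :=
      NPC.Poly.map (F := fun _ q => pre ++ q) ((LangSig.poly_Qs (k + 1)).comp
        (poly_repl hpr' (k + 1))) (Poly.append (NPC.Poly.const pre) (Poly.snd Poly.id))
    have h4 := IsFP.tt (A := A) (H := fun q => bif g (inn (k + 1) q.1) then
        [decide (q.2.all (fun b => !b) = e)] else [false]) h3 h2
    have h5 : (fun x => (fun q : List Bool × List Bool => bif g (inn (k + 1) q.1) then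
        [decide (q.2.all (fun b => !b) = e)] else [false])
        (x, ((LangSig.Qs (k + 1) (rep (k + 1) r' x)).map (fun q => pre ++ q)).map A)) =
        fun y => bif g (inn (k + 1) y) then LangSig.Ver (k + 1) e B (rep (k + 1) r' y)
          else [false] := by
      funext y
      show (bif g (inn (k + 1) y) then [decide (_ = e)] else [false]) =
        bif g (inn (k + 1) y) then [decide (_ = e)] else [false]
      rw [List.map_map]
      rfl
    rw [h5] at h4
    exact h4
  · have hev : (p + Polynomial.X).eval y.length = p.eval y.length + y.length := by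
      rw [Polynomial.eval_add, Polynomial.eval_X]
    have key : ∀ w₁ : List Bool, (Quant ((p + Polynomial.X).eval y.length)
        (fun u => bif g (inn (k + 1) u) then LangSig.Ver (k + 1) e B (rep (k + 1) r' u)
          else [false]) (k + 1) false
          (pairBits w₁ y) ↔ φ (LangSig.fit y w₁) ∧ ψ (LangSig.fit y w₁) y = true) := by
      intro w₁
      have hz : r' (pairBits w₁ y) = r (LangSig.fit y w₁) := by
        rw [hr']
        simp only [unpair_pairBits]
      have hz2 : g (pairBits w₁ y) = ψ (LangSig.fit y w₁) y := by
        rw [hg]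
        simp only [unpair_pairBits]
      rw [quant_inn (fun u => LangSig.Ver (k + 1) e B (rep (k + 1) r' u)) g _ (k + 1) (k + 1) 0
        false _ (by omega)]
      show g (pairBits w₁ y) = true ∧ _ ↔ _
      rw [hz2, and_comm]
      refine and_congr_left fun _ => ?_
      rw [hL, quant_rep (LangSig.Ver (k + 1) e B) r' _ (k + 1) (k + 1) 0 false _ (by omega)]
      show Quant _ _ _ _ (r' _) ↔ _
      rw [hz]
      have hm : (r (LangSig.fit y w₁)).length ≤ (p + Polynomial.X).eval y.length := by
        have h1 := hp (LangSig.fit y w₁)
        rw [LangSig.length_fit] at h1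
        rw [hev]
        omega
      rw [LangSig.quant_iff B (k + 1) _ e (k + 1) 0 false (r (LangSig.fit y w₁))
        (r (LangSig.fit y w₁)) (r (LangSig.fit y w₁)) (by omega) rfl hm
        (by rw [he, Bool.not_not])]
      exact Bool.not_eq_false _ |>.symm.to_iff
    show (∃ x : List Bool, x.length = y.length ∧ φ x ∧ ψ x y = true) ↔
      ∃ w₁ : List Bool, w₁.length ≤ _ ∧ _
    constructor
    · rintro ⟨x, hx, hφ, hψ'⟩
      refine ⟨x, by rw [hev]; omega, ?_⟩
      rw [key, LangSig.fit_eq hx]
      exact ⟨hφ, hψ'⟩
    · rintro ⟨w₁, _, h⟩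
      exact ⟨LangSig.fit y w₁, LangSig.length_fit _ _, (key w₁).1 h⟩

variable {kk k : ℕ} {ma : ℕ → Alg × Polynomial ℕ} {S R : ℕ → Polynomial ℕ}

/-- **DECS3.** -/
theorem sig_hidE (hK : Kh k ma S R) {D : Dt (sysE kk k ma S).K}
    (hsip : ∀ c : ℕ × List Bool, c.1 = 0 → ∀ t, sval (lev S c) kk (D.bl c t) = t)
    (ψ : List Bool → List Bool → Bool) (hψ : Poly fun p : List Bool × List Bool => ψ p.1 p.2) :
    IsSig (er (orc (sysE kk k ma S) D)) (kk + 2)
      {y | ∃ x : List Bool, x.length = y.length ∧ D.fr (nam 0 x) = true ∧ ψ x y = true} := by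
  have hlen : UPoly (fun u : List Bool => u.length) := UPoly.length Poly.id
  have hSe : UPoly (fun u : List Bool => (S 0).eval u.length) := hlen.eval (S 0)
  set r : List Bool → List Bool := fun x => enc (List.replicate (kk + 1) (64 * (S 0).eval x.length))
    (8 * (S 0).eval x.length) (cS 0 ((S 0).eval x.length) (pairBits x [])) with hr
  have hrl : ∀ x, (r x).length = 2 * ((kk + 1) * (64 * (S 0).eval x.length)) + (kk + 1) +
      2 * (8 * (S 0).eval x.length) + 1 + ((S 0).eval x.length + 1 + 1 +
        (0 + 1 + (2 * x.length + 1))) := by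
    intro x
    rw [hr]
    simp only
    rw [enc_len, length_cS, length_pairBits]
    simp
  have he8 : ∀ n, (Polynomial.C 8 * S 0).eval n = 8 * (S 0).eval n := fun n => by simp
  have he64 : ∀ n, (Polynomial.C 64 * S 0).eval n = 64 * (S 0).eval n := fun n => by simp
  have hpr : Poly r := by
    have h1 : ∀ j : ℕ, Poly (fun x : List Bool => enc (List.replicate j
        (64 * (S 0).eval x.length)) (8 * (S 0).eval x.length)
        (cS 0 ((S 0).eval x.length) (pairBits x []))) := by
      intro j
      induction j with
      | zero =>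
        exact poly_pairBits ((poly_rep (hlen.eval (Polynomial.C 8 * S 0))).congr fun x => by
          simp only [he8]) (poly_cS 0 hSe (poly_pairBits Poly.id (NPC.Poly.const [])))
      | succ j ih =>
        have h2 : ∀ x : List Bool, enc (List.replicate (j + 1) (64 * (S 0).eval x.length))
            (8 * (S 0).eval x.length) (cS 0 ((S 0).eval x.length) (pairBits x [])) =
            pairBits (List.replicate (64 * (S 0).eval x.length) true)
              (enc (List.replicate j (64 * (S 0).eval x.length)) (8 * (S 0).eval x.length)
                (cS 0 ((S 0).eval x.length) (pairBits x []))) := by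
          intro x
          rw [List.replicate_succ', LangTrAux.enc_append]
        have h3 : Poly (fun x : List Bool => List.replicate (64 * (S 0).eval x.length) true) :=
          (poly_rep (hlen.eval (Polynomial.C 64 * S 0))).congr fun x => by simp only [he64]
        exact (poly_pairBits h3 ih).congr fun x => (h2 x).symm
    exact h1 (kk + 1)
  have hmain := isSig_ex3 (A := er (orc (sysE kk k ma S) D)) (k := kk)
    (φ := fun x => D.fr (nam 0 x) = true) (false :: false :: [false]) r hpr
    (Polynomial.C 2 * (Polynomial.C (kk + 1) * (Polynomial.C 64 * S 0)) + Polynomial.C (kk + 1) +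
      Polynomial.C 2 * (Polynomial.C 8 * S 0) + Polynomial.C 1 + (S 0 + Polynomial.C 1 +
      Polynomial.C 1 + (Polynomial.C (0 + 1) + (Polynomial.C 2 * Polynomial.X + Polynomial.C 1))))
    (fun x => ?_) (fun x => ?_) ψ hψ
  · exact hmain
  · rw [hrl]
    simp only [Polynomial.eval_add, Polynomial.eval_mul, Polynomial.eval_C, Polynomial.eval_X]
    exact le_rfl
  · rw [hr]
    simp only
    rw [mem_lang_fold _ kk _ (by simp), fold_sval]
    have hcont : (fun v => (fun q => er (orc (sysE kk k ma S) D) ([false, false, false] ++ q))
        (enc (List.replicate (kk + 1) (64 * (S 0).eval x.length)) (8 * (S 0).eval x.length)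
          (cS 0 ((S 0).eval x.length) (pairBits x [])) ++ v)) =
        D.bl (0, x) (tv (sysE kk k ma S) (0, x) (orc (sysE kk k ma S) D)) := by
      funext v
      rw [← orc_on D (show (sysE kk k ma S).ok (0, x) v from fun h => absurd rfl h)]
      show _ = orc (sysE kk k ma S) D (adH kk S (0, x) v)
      rw [adH_zero (c := (0, x)) rfl]
      show orc (sysE kk k ma S) D _ = _
      congr 1
      rw [enc_app]
      have : cS 0 ((S 0).eval x.length) (pairBits x []) ++ v =
          cS 0 ((S 0).eval x.length) (pairBits x v) := by
        simp [cS, pr, pairBits]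
      rw [this]
      rfl
    rw [hcont]
    have ht := tv_zero hK D (c := (0, x)) rfl
    rw [ht]
    have hs : sval ((S 0).eval x.length) kk (D.bl (0, x) (D.fr (nam 0 x))) =
        D.fr (nam 0 x) := hsip (0, x) rfl _
    rw [hs]
    cases D.fr (nam 0 x) <;> simp

end Pool.Agent.H9x.PE
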