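import Pool.Agent.H9x.PN.Sys
import Pool.Agent.K7x.EQ.Stp

/-!
# The system of codes with exact blocks: hidden bits below trees, questions of the level `k` below
exact forrelations
-/

set_option autoImplicit false
set_option linter.unusedSectionVars false
set_option linter.unusedVariables false

namespace Pool.Agent.H9x.PE

open Finset Pool.Agent.NPC Pool.Agent.H622R2 Pool.Agent.H620R2.Gauge Pool.Agent.H622R2.Exp
  Pool.Agent.TH678.ETH Pool.Agent.TH678.SETH Pool.Agent.TH678.RS Pool.Agent.H9x.Q Filter
  Pool.Agent.H591R3.PHG

open Pool.Agent.H9x.RT (lev)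
open Pool.Agent.H9x.SP (Sys Dt J orc base orc_on orc_off orc_free orc_loc tv tv_congr tv_true
  tv_false tv_iff enc_inj2 Blk Good sval)
open Pool.Agent.H9x.SN (er er_congr er_off nam nam_inj nam_len)
open Pool.Agent.H9x.PN (QuH AcH adH adH_zero adH_pos Kh quH_congr R_le)
open Pool.Agent.K7x.EQ (LA)

/-- the strings outside the blocks: a single one, and the questions about the zero string -/
def b0E : List Bool → Bool
  | [false, false, false] => true
  | false :: false :: true :: v => decide (∀ b ∈ v, b = false)
  | _ => false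

open Classical in
/-- the system of codes -/
noncomputable def sysE (kk k : ℕ) (ma : ℕ → Alg × Polynomial ℕ) (S : ℕ → Polynomial ℕ) : Sys where
  K := ℕ × List Bool
  dK := inferInstance
  lev := lev S
  ac := AcH k ma S
  loc := by
    intro c A A' h
    have h1 : CC.cut (lev S c) A = CC.cut (lev S c) A' := by
      funext z
      unfold CC.cut
      split_ifs with hz
      · exact h z hz
      · rfl
    have h2 : CC.cut (lev S c) (er A) = CC.cut (lev S c) (er A') := by
      funext z
      unfold CC.cut
      split_ifs with hz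
      · exact er_congr (h z hz)
      · rfl
    unfold AcH QuH
    rw [h1, h2]
  adr := adH kk S
  ok := fun c w => ¬ c.1 = 0 → w.length = LA (lev S c)
  inj := by
    rintro ⟨e, x⟩ w ⟨e', x'⟩ w' hw hw' h
    by_cases he : e = 0
    · by_cases he' : e' = 0
      · rw [adH_zero (c := (e, x)) he, adH_zero (c := (e', x')) he'] at h
        simp only [List.cons.injEq, true_and] at h
        obtain ⟨_, _, h3⟩ := enc_inj2 (by simp) h
        obtain ⟨h4, _, h6⟩ := cS_inj h3
        have h7 := congrArg unpair h6
        rw [unpair_pairBits, unpair_pairBits] at h7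
        simp only [Prod.mk.injEq] at h7
        rw [h4, h7.1, h7.2]
        exact ⟨rfl, rfl⟩
      · rw [adH_zero (c := (e, x)) he, adH_pos (c := (e', x')) he'] at h
        simp at h
    · by_cases he' : e' = 0
      · rw [adH_pos (c := (e, x)) he, adH_zero (c := (e', x')) he'] at h
        simp at h
      · rw [adH_pos (c := (e, x)) he, adH_pos (c := (e', x')) he'] at h
        simp only [List.cons.injEq, true_and] at h
        obtain ⟨h1, h2, h3⟩ := cS_inj h
        subst h1
        have h4 : w.length = w'.length := by rw [hw he, hw' he', h2]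
        obtain ⟨h5, h6⟩ := List.append_inj' h3 h4
        subst h5
        exact ⟨rfl, h6⟩
  lt := by
    intro c w
    by_cases he : c.1 = 0
    · rw [adH_zero he, List.length_cons, List.length_cons, List.length_cons,
        enc_len, length_cS]
      omega
    · rw [adH_pos he, List.length_cons, List.length_cons, length_cS]
      omega
  nf := by
    intro c w u
    by_cases he : c.1 = 0
    · rw [adH_zero he]
      simp
    · rw [adH_pos he]
      simp
  b0 := b0E

variable {kk k : ℕ} {ma : ℕ → Alg × Polynomial ℕ} {S R : ℕ → Polynomial ℕ}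

/-- truth of the hidden codes -/
theorem tv_zero (hK : Kh k ma S R) (D : Dt (sysE kk k ma S).K) {c : ℕ × List Bool}
    (h : c.1 = 0) : tv (sysE kk k ma S) c (orc (sysE kk k ma S) D) = D.fr (nam 0 c.2) := by
  have h1 : (sysE kk k ma S).ac c (orc (sysE kk k ma S) D) ↔ D.fr (nam 0 c.2) = true := by
    show AcH k ma S c _ ↔ _
    unfold AcH
    rw [if_pos h]
    unfold CC.cut
    rw [if_pos, orc_free]
    rw [List.length_cons, nam_len]
    have := hK.big c.1 c.2.length
    show _ ≤ (S c.1).eval c.2.length
    omega
  rw [Bool.eq_iff_iff, tv_iff]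
  exact h1

/-- truth of the codes of the questions -/
theorem tv_pos (hK : Kh k ma S R) (A : Oracle) {c : ℕ × List Bool} (h : ¬ c.1 = 0) :
    tv (sysE kk k ma S) c A = true ↔
      QuH k ma (c.1 - 1) ((R (c.1 - 1)).eval c.2.length) (er A) c.2 := by
  rw [tv_iff]
  show AcH k ma S c _ ↔ _
  unfold AcH
  rw [if_neg h]
  refine quH_congr hK ?_ le_rfl fun _ _ => rfl
  have h1 := R_le hK (c.1 - 1) c.2.length
  have h2 : c.1 - 1 + 1 = c.1 := by omega
  rw [h2] at h1
  exact h1

theorem tv_pos_congr (hK : Kh k ma S R) {A A' : Oracle} {c : ℕ × List Bool} (h : ¬ c.1 = 0)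
    (hA : ∀ y : List Bool, y.length ≤ (R (c.1 - 1)).eval c.2.length → er A y = er A' y) :
    tv (sysE kk k ma S) c A = tv (sysE kk k ma S) c A' := by
  rw [Bool.eq_iff_iff, tv_pos hK A h, tv_pos hK A' h]
  exact quH_congr hK le_rfl le_rfl hA

end Pool.Agent.H9x.PE
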