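import Pool.Agent.H9x.PN.Num2

/-!
# The numbers, for exact blocks
-/

set_option autoImplicit false

namespace Pool.Agent.H9x.PE

open Filter

open Pool.Agent.H9x.SP (LB)
open Pool.Agent.H9x.PN Pool.Agent.H9x.PN.Nu

theorem exists_num3 (k : ℕ) (Rp : Polynomial ℕ) (N₀ : ℕ) :
    ∃ (s r m' u u₁ T : ℕ) (Ks t : ℕ → ℕ) (q : ℕ → ℝ),
      N₀ ≤ 64 * s ∧ 5 ≤ s ∧ Rp.eval (64 * s) ≤ T ∧ 16 * (64 * s) + 6 ≤ T ∧
      T < (16 * (64 * s) + 6) ^ (2 ^ r) ∧ r ≠ 0 ∧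
      T ≤ m' ∧ (∀ j < r, 2 * (2 ^ (3 * T + 1) * (2 ^ (4 * s - 3)) ^ (Ks (j + 1) + 1)) ≤ 2 ^ m') ∧
      (∀ j < r, Ks (j + 1) + 2 ≤ 2 ^ m') ∧
      (k + 3) * (2 * m' + 1) + 32 * T + 168 + (k + 3) ≤ 2 ^ (2 * u) ∧
      (∀ j < r, 1 ≤ j → T * (Ks j + 1) ≤ t j) ∧ (∀ j < r, 1 ≤ j → 1 ≤ t j) ∧
      (∀ j < r, 1 ≤ j → 2 * (16 * (t j : ℝ) * Ks j + t j + 1) ≤ pS k (t j) * (Ks (j + 1) + 1)) ∧
      8 * u₁ ≤ s ∧ T ≤ 2 ^ (2 * u₁) ∧ 2 ^ (2 * u₁) ≤ Ks 1 ∧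
      (2 : ℝ) ^ (3 * T + 1) * (k * (2 ^ (k * (2 * T + 1) + 2) * (1 / 2) ^ (2 ^ (2 * u₁) + 1))) ≤ q 1 ∧
      (∀ j < r, 1 ≤ j → (T + 1) * (214 * LB u 1 (k + 3) / 2 ^ (16 * (64 * s) + 6)) +
        2 / pS k (t j) * epsS (2 ^ (3 * T + 1)) (2 ^ (4 * s - 3)) k T (t j) +
        (2 / pS k (t j) * (16 * t j) + 1) * q j ≤ q (j + 1)) ∧ q r < 1 / 2 ∧
      144 * T ^ 2 * (Ks r + 1) < 2 ^ (4 * s - 3) := by
  obtain ⟨Tf, hTf⟩ : ∃ Tf : ℕ → ℕ, ∀ n, Tf n = (Rp.comp (Polynomial.C 64 * Polynomial.X)).eval n +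
      1024 * n + 6 := ⟨_, fun n => rfl⟩
  have hTf' : ∀ n, Tf n = Rp.eval (64 * n) + 1024 * n + 6 := by
    intro n
    rw [hTf, Polynomial.eval_comp]
    simp
  have hT : PB Tf := by
    have h := ((PB.poly (Rp.comp (Polynomial.C 64 * Polynomial.X))).add
      ((PB.const 1024).mul PB.id)).add (PB.const 6)
    exact h.mono fun n => (hTf n).le
  obtain ⟨d, hd⟩ := hT
  have hT : PB Tf := ⟨d, hd⟩
  obtain ⟨wf, hwf⟩ : ∃ wf : ℕ → ℕ, ∀ n, wf n = 4 * n - 3 := ⟨_, fun n => rfl⟩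
  have hw : PB wf := ((PB.const 4).mul PB.id).mono fun n => by
    rw [hwf]
    exact Nat.sub_le _ _
  -- the number of rounds
  obtain ⟨r, hr⟩ : ∃ r, r = d + 1 := ⟨_, rfl⟩
  have hTr : ∀ n, Tf n < (16 * (64 * n) + 6) ^ (2 ^ r) := by
    intro n
    calc Tf n ≤ (n + 2) ^ d := hd n
      _ ≤ (16 * (64 * n) + 6) ^ d := Nat.pow_le_pow_left (by omega) _
      _ < (16 * (64 * n) + 6) ^ (d + 1) := Nat.pow_lt_pow_right (by omega) (by omega)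
      _ ≤ (16 * (64 * n) + 6) ^ (2 ^ r) := by
        rw [hr]
        exact Nat.pow_le_pow_right (by omega) Nat.lt_two_pow_self.le
  -- the first size
  obtain ⟨Y, hY⟩ : ∃ Y : ℕ → ℕ, ∀ n, Y n = 3 * Tf n + 1 + k * (2 * Tf n + 1) + 2 + k + n :=
    ⟨_, fun n => rfl⟩
  have pY : PB Y := by
    have h := ((((((PB.const 3).mul hT).add (PB.const 1)).add ((PB.const k).mul
      (((PB.const 2).mul hT).add (PB.const 1)))).add (PB.const 2)).add (PB.const k)).add PB.id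
    exact h.mono fun n => (hY n).le
  obtain ⟨vf, hvf⟩ : ∃ vf : ℕ → ℕ, ∀ n, vf n = Nat.clog 4 (Y n) := ⟨_, fun n => rfl⟩
  have hv12 : ∀ n, Y n ≤ 4 ^ vf n ∧ 4 ^ vf n ≤ 4 * Y n := by
    intro n
    rw [hvf]
    exact clog4 (by rw [hY]; omega)
  have pv : PB fun n => 4 ^ vf n := ((PB.const 4).mul pY).mono fun n => (hv12 n).2
  -- the other sizes
  obtain ⟨Km, hKm⟩ : ∃ Km : ℕ → ℕ, ∀ n, Km n = ∑ j ∈ Finset.range (r + 1),
      KB k (wf n) (Tf n) (4 ^ vf n) j := ⟨_, fun n => rfl⟩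
  have pKm : PB Km := (PB.sum (pb_KB k hw hT pv) (r + 1)).mono fun n => (hKm n).le
  have hKj : ∀ n, ∀ j ≤ r, KB k (wf n) (Tf n) (4 ^ vf n) j ≤ Km n := by
    intro n j hj
    rw [hKm]
    exact Finset.single_le_sum (f := fun j => KB k (wf n) (Tf n) (4 ^ vf n) j)
      (fun _ _ => Nat.zero_le _) (Finset.mem_range.2 (by omega))
  obtain ⟨mf, hmf⟩ : ∃ mf : ℕ → ℕ, ∀ n, mf n = 3 * Tf n + 2 + wf n * (Km n + 1) + Km n + 2 :=
    ⟨_, fun n => rfl⟩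
  have pm : PB mf := by
    have h := (((((PB.const 3).mul hT).add (PB.const 2)).add
      (hw.mul (pKm.add (PB.const 1)))).add pKm).add (PB.const 2)
    exact h.mono fun n => (hmf n).le
  obtain ⟨X, hX⟩ : ∃ X : ℕ → ℕ, ∀ n, X n = (k + 3) * (2 * mf n + 1) + 32 * Tf n + 168 + (k + 3) :=
    ⟨_, fun n => rfl⟩
  have pX : PB X := by
    have h := ((((PB.const (k + 3)).mul (((PB.const 2).mul pm).add (PB.const 1))).add
      ((PB.const 32).mul hT)).add (PB.const 168)).add (PB.const (k + 3))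
    exact h.mono fun n => (hX n).le
  obtain ⟨uf, huf⟩ : ∃ uf : ℕ → ℕ, ∀ n, uf n = Nat.clog 4 (X n) := ⟨_, fun n => rfl⟩
  have hu12 : ∀ n, X n ≤ 4 ^ uf n ∧ 4 ^ uf n ≤ 4 * X n := by
    intro n
    rw [huf]
    exact clog4 (by rw [hX]; omega)
  have pu : PB fun n => 4 ^ uf n := ((PB.const 4).mul pX).mono fun n => (hu12 n).2
  obtain ⟨Lf, hLf⟩ : ∃ Lf : ℕ → ℕ, ∀ n, Lf n = ((4 ^ uf n) ^ 2 + 1) *
    (24 * 4 ^ uf n) ^ (2 * (k + 3)) := ⟨_, fun n => rfl⟩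
  have pL : PB Lf := by
    have h := ((pu.pow 2).add (PB.const 1)).mul (((PB.const 24).mul pu).pow (2 * (k + 3)))
    exact h.mono fun n => (hLf n).le
  -- the choice of `n`
  have e1 := ((PB.const 2).mul (pb_QB k hw hT pv pL r)).lt
  have e2 := (((PB.const 144).mul (hT.pow 2)).mul ((pb_KB k hw hT pv r).add (PB.const 1))).lt
  have e3 := (pv.pow 8).lt
  obtain ⟨n, ⟨⟨hn1, hn2⟩, hn3⟩, hn4⟩ := (((e1.and e2).and e3).and
    (eventually_ge_atTop (N₀ + 5))).exists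
  have hLB : LB (uf n) 1 (k + 3) = Lf n := by
    rw [hLf]
    unfold LB
    push_cast
    rw [pow_mul]
    norm_num
  have hwn : n ≤ wf n := by
    rw [hwf]
    omega
  have h24 : ∀ j, (0:ℝ) < 24 * (tt k (wf n) (Tf n) (KB k (wf n) (Tf n) (4 ^ vf n) j) : ℕ) := by
    intro j
    have : 0 < tt k (wf n) (Tf n) (KB k (wf n) (Tf n) (4 ^ vf n) j) := by
      unfold tt
      omega
    positivity
  have hpS : ∀ j, 2 / pS k (tt k (wf n) (Tf n) (KB k (wf n) (Tf n) (4 ^ vf n) j)) =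
      2 * (24 * ((tt k (wf n) (Tf n) (KB k (wf n) (Tf n) (4 ^ vf n) j) : ℕ) : ℝ)) ^ k := by
    intro j
    unfold pS
    rw [one_div_pow, div_div_eq_mul_div, div_one]
  have hv4 : 2 ^ (2 * vf n) = 4 ^ vf n := by
    rw [pow_mul]
    norm_num
  refine ⟨n, r, mf n, uf n, vf n, Tf n, fun j => KB k (wf n) (Tf n) (4 ^ vf n) j,
    fun j => tt k (wf n) (Tf n) (KB k (wf n) (Tf n) (4 ^ vf n) j),
    fun j => (QB k (wf n) (Tf n) (4 ^ vf n) (Lf n) j : ℝ) / 2 ^ n, by omega, by omega, ?_, ?_,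
    hTr n, by omega, ?_, fun j hj => ?_, fun j hj => ?_, ?_, fun j hj hj1 => ?_,
    fun j hj hj1 => ?_, fun j hj hj1 => ?_, ?_, ?_, ?_, ?_, fun j hj hj1 => ?_, ?_, ?_⟩
  · rw [hTf']
    omega
  · rw [hTf']
    omega
  · rw [hmf]
    omega
  · have h1 := hKj n (j + 1) (by omega)
    have h2 : wf n * (KB k (wf n) (Tf n) (4 ^ vf n) (j + 1) + 1) ≤ wf n * (Km n + 1) :=
      Nat.mul_le_mul_left _ (by omega)
    show 2 * (2 ^ (3 * Tf n + 1) * (2 ^ (4 * n - 3)) ^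
      (KB k (wf n) (Tf n) (4 ^ vf n) (j + 1) + 1)) ≤ _
    rw [← hwf n, ← pow_mul, ← pow_add, ← pow_succ']
    refine Nat.pow_le_pow_right (by norm_num) ?_
    rw [hmf]
    omega
  · have h1 := hKj n (j + 1) (by omega)
    show KB k (wf n) (Tf n) (4 ^ vf n) (j + 1) + 2 ≤ _
    have h2 : mf n < 2 ^ mf n := Nat.lt_two_pow_self
    have h3 := hmf n
    omega
  · have h1 := (hu12 n).1
    rw [hX] at h1
    rw [pow_mul]
    exact h1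
  · show Tf n * (KB k (wf n) (Tf n) (4 ^ vf n) j + 1) ≤
      tt k (wf n) (Tf n) (KB k (wf n) (Tf n) (4 ^ vf n) j)
    unfold tt
    omega
  · show 1 ≤ tt k (wf n) (Tf n) (KB k (wf n) (Tf n) (4 ^ vf n) j)
    unfold tt
    omega
  · obtain ⟨i, rfl⟩ : ∃ i, j = i + 1 := ⟨j - 1, by omega⟩
    show 2 * (16 * ((tt k (wf n) (Tf n) (KB k (wf n) (Tf n) (4 ^ vf n) (i + 1)) : ℕ) : ℝ) *
      (KB k (wf n) (Tf n) (4 ^ vf n) (i + 1) : ℕ) +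
      (tt k (wf n) (Tf n) (KB k (wf n) (Tf n) (4 ^ vf n) (i + 1)) : ℕ) + 1) ≤
      pS k (tt k (wf n) (Tf n) (KB k (wf n) (Tf n) (4 ^ vf n) (i + 1))) *
        ((KB k (wf n) (Tf n) (4 ^ vf n) (i + 1 + 1) : ℕ) + 1)
    have h1 : (0:ℝ) < (24 * ((tt k (wf n) (Tf n) (KB k (wf n) (Tf n) (4 ^ vf n) (i + 1)) : ℕ) : ℝ)) ^
      k := pow_pos (h24 (i + 1)) k
    unfold pS
    rw [one_div_pow, div_mul_eq_mul_div, one_mul, le_div_iff₀ h1]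
    rw [KB_succ]
    push_cast
    linarith
  · have h1 : (4 ^ vf n) ^ 8 < 2 ^ n := hn3
    have h2 : 2 ^ (16 * vf n) < 2 ^ n := by
      calc 2 ^ (16 * vf n) = (4 ^ vf n) ^ 8 := by
            rw [← hv4, ← pow_mul]
            congr 1
            ring
        _ < _ := h1
    have h3 := (Nat.pow_lt_pow_iff_right (by norm_num)).1 h2
    omega
  · rw [hv4]
    have h1 := (hv12 n).1
    rw [hY] at h1
    omega
  · rw [hv4]
    exact le_rfl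
  · show (2 : ℝ) ^ (3 * Tf n + 1) * (k * (2 ^ (k * (2 * Tf n + 1) + 2) *
      (1 / 2) ^ (2 ^ (2 * vf n) + 1))) ≤
      ((QB k (wf n) (Tf n) (4 ^ vf n) (Lf n) 1 : ℕ) : ℝ) / 2 ^ n
    have hk : (k : ℝ) ≤ 2 ^ k := by exact_mod_cast Nat.lt_two_pow_self.le
    have h1 := (hv12 n).1
    rw [hY, ← hv4] at h1
    have h2 : ((QB k (wf n) (Tf n) (4 ^ vf n) (Lf n) 1 : ℕ) : ℝ) = 1 := by simp [QB]
    rw [h2]
    calc (2 : ℝ) ^ (3 * Tf n + 1) * (k * (2 ^ (k * (2 * Tf n + 1) + 2) *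
          (1 / 2) ^ (2 ^ (2 * vf n) + 1)))
        ≤ 2 ^ (3 * Tf n + 1) * (2 ^ k * (2 ^ (k * (2 * Tf n + 1) + 2) *
          (1 / 2) ^ (2 ^ (2 * vf n) + 1))) := by gcongr
      _ = 2 ^ (3 * Tf n + 1 + k + (k * (2 * Tf n + 1) + 2)) / 2 ^ (2 ^ (2 * vf n) + 1) := by
          rw [pow_add (2 : ℝ) (3 * Tf n + 1 + k) (k * (2 * Tf n + 1) + 2),
            pow_add (2 : ℝ) (3 * Tf n + 1) k, one_div_pow]
          ring
      _ ≤ 1 / 2 ^ n := by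
          rw [div_le_div_iff₀ (by positivity) (by positivity), one_mul, ← pow_add]
          exact pow_le_pow_right₀ (by norm_num) (by omega)
  · obtain ⟨i, rfl⟩ : ∃ i, j = i + 1 := ⟨j - 1, by omega⟩
    show (Tf n + 1) * (214 * LB (uf n) 1 (k + 3) / 2 ^ (16 * (64 * n) + 6)) +
        2 / pS k (tt k (wf n) (Tf n) (KB k (wf n) (Tf n) (4 ^ vf n) (i + 1))) *
          epsS (2 ^ (3 * Tf n + 1)) (2 ^ (4 * n - 3)) k (Tf n)
          (tt k (wf n) (Tf n) (KB k (wf n) (Tf n) (4 ^ vf n) (i + 1))) +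
        (2 / pS k (tt k (wf n) (Tf n) (KB k (wf n) (Tf n) (4 ^ vf n) (i + 1))) *
          (16 * ((tt k (wf n) (Tf n) (KB k (wf n) (Tf n) (4 ^ vf n) (i + 1)) : ℕ) : ℝ)) + 1) *
        ((QB k (wf n) (Tf n) (4 ^ vf n) (Lf n) (i + 1) : ℝ) / 2 ^ n) ≤
        (QB k (wf n) (Tf n) (4 ^ vf n) (Lf n) (i + 1 + 1) : ℝ) / 2 ^ n
    rw [hpS, hLB, ← hwf n]
    have h1 : epsS (2 ^ (3 * Tf n + 1)) (2 ^ wf n) k (Tf n)
        (tt k (wf n) (Tf n) (KB k (wf n) (Tf n) (4 ^ vf n) (i + 1))) ≤ 1 / 2 ^ n := by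
      refine (eps_le k (wf n) (Tf n) _ ?_).trans ?_
      · unfold tt
        omega
      · apply one_div_le_one_div_of_le (by positivity)
        exact pow_le_pow_right₀ (by norm_num) hwn
    have h2 : (214 * (Lf n : ℝ)) / 2 ^ (16 * (64 * n) + 6) ≤ (214 * (Lf n : ℝ)) / 2 ^ n := by
      apply div_le_div_of_nonneg_left (by positivity) (by positivity)
      exact pow_le_pow_right₀ (by norm_num) (by omega)
    rw [QB_succ]
    push_cast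
    obtain ⟨t, ht⟩ : ∃ t : ℝ, t = ((tt k (wf n) (Tf n) (KB k (wf n) (Tf n) (4 ^ vf n) (i + 1)) : ℕ) :
      ℝ) := ⟨_, rfl⟩
    have ht0 : 0 < t := by
      have := h24 (i + 1)
      rw [← ht] at this
      linarith
    rw [← ht]
    have h4 : ((Tf n : ℝ) + 1) * (214 * (Lf n : ℝ) / 2 ^ (16 * (64 * n) + 6)) ≤
        ((Tf n : ℝ) + 1) * (214 * (Lf n : ℝ) / 2 ^ n) := mul_le_mul_of_nonneg_left h2 (by positivity)
    have h5 : 2 * (24 * t) ^ k * epsS (2 ^ (3 * Tf n + 1)) (2 ^ wf n) k (Tf n)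
        (tt k (wf n) (Tf n) (KB k (wf n) (Tf n) (4 ^ vf n) (i + 1))) ≤
          2 * (24 * t) ^ k * (1 / 2 ^ n) :=
      mul_le_mul_of_nonneg_left h1 (by positivity)
    refine (add_le_add (add_le_add h4 h5) le_rfl).trans (le_of_eq ?_)
    field_simp
  · show (QB k (wf n) (Tf n) (4 ^ vf n) (Lf n) r : ℝ) / 2 ^ n < 1 / 2
    rw [div_lt_div_iff₀ (by positivity) (by norm_num), one_mul, mul_comm]
    exact_mod_cast hn1
  · exact lt_of_lt_of_le hn2 (Nat.pow_le_pow_right (by norm_num) (by omega))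

end Pool.Agent.H9x.PE
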