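import Pool.Agent.H9x.PN.ReqG
import Pool.Agent.H9x.PE.RowG
import Pool.Agent.H9x.PE.Blk
import Pool.Agent.H9x.PE.DecS
import Pool.Agent.H9x.PE.Num3

/-!
# One quantum family is wrong at one string: the bits of the hidden string
-/

set_option autoImplicit false
set_option linter.unusedSectionVars false
set_option linter.unusedVariables false

namespace Pool.Agent.H9x.PE

open Finset H568R2 Pool.Agent.H676 Pool.Agent.NPC Pool.Agent.H622R2 Pool.Agent.H620R2.Gauge
  Pool.Agent.H622R2.Exp Pool.Agent.TH678.ETH Pool.Agent.TH678.SETH Pool.Agent.TH678.RS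
  Pool.Agent.H9x.Q Filter Pool.Agent.H591R3.PHG

open Pool.Agent.H9x.RT (lev UU mem_UU card_lev mkp)
open Pool.Agent.H9x.SP (Sys Dt J orc base orc_on orc_off orc_free orc_loc tv tv_congr tv_true
  tv_false tv_iff enc_inj2 Blk Good sval Fools LB one_le_LB sum_lev_le)
open Pool.Agent.H9x.SN (er er_congr er_off nam nam_inj nam_len out_iff dtr_runD)
open Pool.Agent.H9x.PN (QuH Kh R_le er_eq QC Win Win.tv_er Win.precomp frH frH_off frH_none
  frH_some XH WH mem_XH mem_W0 mem_WS lev_zero pow_tower WH_ge WH_ge2 R_lt exists_win rowG rowG_on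
  rowG_off sg phi cnX_congr OmL muL rstL lfmL cnX rt muL_nonneg muL_sum tr_lfmL lfmL_loc
  sval_cnX fa_shp2 bd ind card_XH sum_W epsS epsS_mono pS exists_goodO phi_update exists_as)
open Pool.Agent.K7x.EQ (us us_eq)

variable {kk k : ℕ} {ma : ℕ → Alg × Polynomial ℕ} {S R : ℕ → Polynomial ℕ}

/-- the strings with a common one with a hidden string of their length -/
def LU (f : List Bool → Bool) : Set (List Bool) :=
  {y | ∃ x : List Bool, x.length = y.length ∧ f (nam 0 x) = true ∧ hit x y = true}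

/-- the family decides the language -/
def RtU (F : QFamily) (A : Oracle) (f : List Bool → Bool) : Prop :=
  ∀ y, (y ∈ LU f → 2 / 3 ≤ F.acc A y) ∧ (y ∉ LU f → F.acc A y ≤ 1 / 3)

/-- there is exactly one hidden string of each length -/
def Uf (f : List Bool → Bool) : Prop :=
  ∀ n : ℕ, ∃! x : List Bool, x.length = n ∧ f (nam 0 x) = true

theorem uf_frH {n : ℕ} {f₀ : List Bool → Bool} (h : Uf f₀) (v : Fin n → Bool) :
    Uf (frH n f₀ (some v)) := by
  intro m
  by_cases hm : m = n
  · subst hm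
    refine ⟨List.ofFn v, ⟨List.length_ofFn, ?_⟩, ?_⟩
    · rw [frH_some List.length_ofFn]
      exact decide_eq_true rfl
    · rintro x ⟨h1, h2⟩
      rw [frH_some h1] at h2
      exact of_decide_eq_true h2
  · obtain ⟨x, ⟨h1, h2⟩, h3⟩ := h m
    have hoff : ∀ y : List Bool, y.length = m → frH n f₀ (some v) (nam 0 y) = f₀ (nam 0 y) :=
      fun y hy => frH_off (by rw [nam_len]; omega) _
    refine ⟨x, ⟨h1, (hoff x h1).trans h2⟩, ?_⟩
    rintro y ⟨h4, h5⟩
    exact h3 y ⟨h4, (hoff y h4).symm.trans h5⟩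

/-- some coordinate takes both values often -/
theorem exists_coord {M n : ℕ} (hM : 2 ≤ M) {e : Fin M → (Fin n → Bool)}
    (he : Function.Injective e) :
    ∃ l : Fin n, ∀ b : Bool, M ≤ 2 * n * (univ.filter fun i => e i l = b).card := by
  classical
  by_contra hcon
  push Not at hcon
  choose b hb using hcon
  set U : Finset (Fin M) := univ.filter fun i => ∀ l, e i l ≠ b l with hU
  have h1 : U.card ≤ 1 := by
    refine card_le_one.2 fun i hi i' hi' => he ?_
    rw [hU, mem_filter] at hi hi'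
    funext l
    have h2 := hi.2 l
    have h3 := hi'.2 l
    cases h4 : e i l <;> cases h5 : e i' l <;> cases h6 : b l <;> simp_all
  have h2 : M ≤ U.card + ∑ l : Fin n, (univ.filter fun i => e i l = b l).card := by
    have h3 : (univ : Finset (Fin M)) ⊆ U ∪ univ.biUnion fun l : Fin n =>
        univ.filter fun i => e i l = b l := by
      intro i _
      rw [mem_union, mem_biUnion]
      by_cases h4 : ∀ l, e i l ≠ b l
      · left
        rw [hU, mem_filter]
        exact ⟨mem_univ _, h4⟩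
      · right
        push Not at h4
        obtain ⟨l, hl⟩ := h4
        exact ⟨l, mem_univ _, by rw [mem_filter]; exact ⟨mem_univ _, hl⟩⟩
    have h4 := (card_le_card h3).trans (card_union_le _ _)
    rw [card_univ, Fintype.card_fin] at h4
    exact h4.trans (Nat.add_le_add_left card_biUnion_le _)
  rcases Nat.eq_zero_or_pos n with h0 | h0
  · subst h0
    rw [Fintype.sum_empty] at h2
    omega
  · have hne : (univ : Finset (Fin n)).Nonempty := ⟨⟨0, h0⟩, mem_univ _⟩
    have h3 : ∑ l : Fin n, 2 * n * (univ.filter fun i => e i l = b l).card < ∑ _l : Fin n, M :=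
      sum_lt_sum_of_nonempty hne fun l _ => hb l
    rw [sum_const, card_univ, Fintype.card_fin, smul_eq_mul, ← mul_sum] at h3
    have h4 : 2 * (∑ l : Fin n, (univ.filter fun i => e i l = b l).card) < M := by
      by_contra hcon
      push Not at hcon
      have := Nat.mul_le_mul_left n hcon
      nlinarith
    omega

theorem hit_unit {n : ℕ} (v : Fin n → Bool) (l : Fin n) :
    hit (List.ofFn v) (List.ofFn fun j => decide (j = l)) = v l := by
  unfold hit
  rw [Bool.eq_iff_iff, decide_eq_true_iff]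
  have h1 : (List.ofFn v).zip (List.ofFn fun j => decide (j = l)) =
      List.ofFn fun j => (v j, decide (j = l)) := by
    refine List.ext_getElem (by simp) fun i h2 h3 => ?_
    simp
  rw [h1, List.mem_ofFn]
  constructor
  · rintro ⟨j, hj⟩
    rw [Prod.mk.injEq] at hj
    have := of_decide_eq_true hj.2
    rw [← this]
    exact hj.1
  · intro h
    exact ⟨l, by rw [h, decide_eq_true rfl]⟩

open Classical in
/-- few worlds are noticed at each string -/
theorem few_worldsE (hK : Kh k ma S R) {n T K N' : ℕ} {e : Fin N' → (Fin n → Bool)}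
    (he : Function.Injective e) {f₀ : List Bool → Bool}
    {B : ℕ × List Bool → Bool → List Bool → Bool}
    (hbd : ¬ bd (sysE kk k ma S) (fun i : Option (Fin N') => frH n f₀ (i.map e)) (XH S T) K B) {y : List Bool} (hy : y.length ≤ T) :
    (univ.filter fun i : Fin N' => er (orc (sysE kk k ma S) ⟨B, frH n f₀ (some (e i))⟩) y ≠
      er (orc (sysE kk k ma S) ⟨B, frH n f₀ none⟩) y).card ≤ K + 1 := by
  have hW := (win_E (kk := kk) hK n T f₀).precomp he
  by_cases hfree : ∃ u, y = true :: u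
  · obtain ⟨u, rfl⟩ := hfree
    rw [filter_false_of_mem fun i _ => by
      rw [ne_eq, not_not]
      rfl]
    simp
  · push Not at hfree
    by_cases hp : ∃ c w, (sysE kk k ma S).ok c w ∧ y = (sysE kk k ma S).adr c w
    · obtain ⟨c, w, hok, rfl⟩ := hp
      have hlt : lev S c < ((sysE kk k ma S).adr c w).length := (sysE kk k ma S).lt c w
      have h1 : (univ.filter fun i : Fin N' =>
          er (orc (sysE kk k ma S) ⟨B, frH n f₀ (some (e i))⟩) ((sysE kk k ma S).adr c w) ≠
          er (orc (sysE kk k ma S) ⟨B, frH n f₀ none⟩) ((sysE kk k ma S).adr c w)).card ≤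
          (univ.filter fun i : Fin N' =>
            tv (sysE kk k ma S) c (orc (sysE kk k ma S) ⟨B, frH n f₀ (some (e i))⟩) ≠
            tv (sysE kk k ma S) c (orc (sysE kk k ma S) ⟨B, frH n f₀ none⟩)).card := by
        refine card_le_card fun i hi => ?_
        rw [mem_filter] at hi ⊢
        refine ⟨mem_univ _, fun heq => hi.2 ?_⟩
        rw [er_off hfree, er_off hfree, orc_on _ hok, orc_on _ hok]
        show B c _ w = B c _ w
        rw [heq]
      refine h1.trans ?_
      by_cases h0 : c.1 = 0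
      · by_cases hn : c.2.length = n
        · rcases hW.ad 0 c (mem_W0.2 ⟨h0, hn⟩) with h2 | h2
          · exact absurd h0 ((mem_XH hK).1 h2).2
          · exact (h2 B).trans (by omega)
        · rw [filter_false_of_mem fun i _ => by
            rw [ne_eq, not_not, tv_zero hK _ h0, tv_zero hK _ h0]
            show frH n f₀ (some (e i)) (nam 0 c.2) = frH n f₀ none (nam 0 c.2)
            have hne : (nam 0 c.2).length ≠ n + 1 := by
              rw [nam_len]
              omega
            rw [frH_off hne, frH_off hne]]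
          simp
      · by_contra hcon
        push Not at hcon
        exact hbd ⟨c, (mem_XH hK).2 ⟨by omega, h0⟩, lt_trans (Nat.lt_succ_self K) hcon⟩
    · push Not at hp
      rw [filter_false_of_mem fun i _ => by
        rw [ne_eq, not_not, er_off hfree, er_off hfree, orc_off _ hp, orc_off _ hp]
        rcases y with _ | ⟨c₁, u⟩
        · rfl
        · cases c₁
          · rfl
          · exact absurd rfl (hfree u)]
      simp

/-- **One family, in contents in which no question separates many worlds.** -/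
theorem req_coreE (hK : Kh k ma S R) (F : QFamily) (N₀ : ℕ) (D₀ : Dt (sysE kk k ma S).K)
    {G : ℕ × List Bool → Bool → (List Bool → Bool) → Prop} (hU₀ : Uf D₀.fr)
    {n T T₀ K M : ℕ} {e : Fin M → (Fin n → Bool)} (he : Function.Injective e)
    (hRl : (F.circ n).length ≤ T₀) (hCs : Short T (F.circ n)) (hN : N₀ ≤ n)
    (hfin : 1152 * n * T₀ ^ 2 * (K + 1) < M) (hM : 2 ≤ M)
    {B : ℕ × List Bool → Bool → List Bool → Bool}
    (hB1 : ∀ c t, G c t (B c t))
    (hB2 : ∀ c : ℕ × List Bool, (∀ j, c ∉ WH S n T j) → B c = D₀.bl c)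
    (hB3 : ¬ bd (sysE kk k ma S) (fun i : Option (Fin M) => frH n D₀.fr (i.map e)) (XH S T) K B) :
    ∃ (D' : Dt (sysE kk k ma S).K) (N' : ℕ), (∀ c t, G c t (D'.bl c t)) ∧ Uf D'.fr ∧
      (∀ c, lev S c < N₀ → D'.bl c = D₀.bl c) ∧
      (∀ u : List Bool, u.length < N₀ → D'.fr u = D₀.fr u) ∧
      ∀ D'' : Dt (sysE kk k ma S).K, (∀ c, lev S c < N' → D''.bl c = D'.bl c) →
        (∀ u : List Bool, u.length < N' → D''.fr u = D'.fr u) →
          ¬ RtU F (er (orc (sysE kk k ma S) D'')) D''.fr := by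
  classical
  set f₀ := D₀.fr with hf₀
  by_contra hcon
  push Not at hcon
  have hne : ∀ (i : Option (Fin n → Bool)), (∀ u : List Bool, u.length < N₀ →
      frH n f₀ i u = D₀.fr u) := fun i u hu' => frH_off (by omega) i
  have hlow : ∀ c : ℕ × List Bool, lev S c < N₀ → B c = D₀.bl c := fun c hc =>
    hB2 c fun j hj => by
      have := WH_ge hK hj
      omega
  have hright : ∀ (v : Fin n → Bool) (y : List Bool), y.length = n →
      ((y ∈ LU (frH n f₀ (some v)) →
        2 / 3 ≤ F.acc (er (orc (sysE kk k ma S) ⟨B, frH n f₀ (some v)⟩)) y) ∧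
      (y ∉ LU (frH n f₀ (some v)) →
        F.acc (er (orc (sysE kk k ma S) ⟨B, frH n f₀ (some v)⟩)) y ≤ 1 / 3)) := by
    intro v y hyn
    obtain ⟨D'', h1, h2, h3⟩ := hcon ⟨B, frH n f₀ (some v)⟩ (T + n + 2) hB1 (uf_frH hU₀ v) hlow
      (hne (some v))
    have h4 : (y ∈ LU D''.fr ↔ y ∈ LU (frH n f₀ (some v))) := by
      show (∃ x : List Bool, _ ∧ _ ∧ _) ↔ (∃ x : List Bool, _ ∧ _ ∧ _)
      refine exists_congr fun x => and_congr_right fun hx => ?_
      rw [h2 (nam 0 x) (by rw [nam_len]; omega)]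
    have h5 : F.acc (er (orc (sysE kk k ma S) D'')) y =
        F.acc (er (orc (sysE kk k ma S) ⟨B, frH n f₀ (some v)⟩)) y := by
      unfold QFamily.acc
      refine prob_congr (B := T) (fun y hy => er_congr ?_) _ ?_ _ _
      · exact orc_loc (n := T + n + 2) h1 h2 y.length y rfl (by omega)
      · rw [hyn]
        exact hCs
    have h6 := h3 y
    rw [h4, h5] at h6
    exact h6
  obtain ⟨l, hl⟩ := exists_coord hM he
  set y : List Bool := List.ofFn fun j : Fin n => decide (j = l) with hy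
  have hyl : y.length = n := List.length_ofFn
  have hmem : ∀ v : Fin n → Bool, y ∈ LU (frH n f₀ (some v)) ↔ v l = true := by
    intro v
    constructor
    · rintro ⟨x, hx, hx2, hx3⟩
      rw [frH_some (hx.trans hyl)] at hx2
      rw [of_decide_eq_true hx2, hy, hit_unit] at hx3
      exact hx3
    · intro hv
      refine ⟨List.ofFn v, by rw [hyl]; exact List.length_ofFn, ?_, ?_⟩
      · rw [frH_some List.length_ofFn]
        exact decide_eq_true rfl
      · rw [hy, hit_unit]
        exact hv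
  set C := F.circ n with hC
  have hCl : C.length ≤ T₀ := hRl
  have h2 := sum_prob_diff (ι := Fin M) (er (orc (sysE kk k ma S) ⟨B, frH n f₀ none⟩))
    (fun i => er (orc (sysE kk k ma S) ⟨B, frH n f₀ (some (e i))⟩)) ((K : ℝ) + 1) T (by positivity)
    (fun y hy => by
      have h3 := few_worldsE hK he hB3 hy
      have h4 : ((univ.filter fun i : Fin M =>
          er (orc (sysE kk k ma S) ⟨B, frH n f₀ (some (e i))⟩) y ≠
          er (orc (sysE kk k ma S) ⟨B, frH n f₀ none⟩) y).card : ℝ) ≤ ((K + 1 : ℕ) : ℝ) := by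
        exact_mod_cast h3
      push_cast at h4
      exact h4) C hCs (n + 1 + F.anc.eval n) y
  have hacc : ∀ i : Option (Fin n → Bool), F.acc (er (orc (sysE kk k ma S) ⟨B, frH n f₀ i⟩)) y =
      prob (er (orc (sysE kk k ma S) ⟨B, frH n f₀ i⟩)) C (n + 1 + F.anc.eval n) y := by
    intro i
    unfold QFamily.acc
    rw [hyl]
  set p₀ := prob (er (orc (sysE kk k ma S) ⟨B, frH n f₀ none⟩)) C (n + 1 + F.anc.eval n) y with hp₀
  obtain ⟨b, hb⟩ : ∃ b : Bool, ∀ i : Fin M, e i l = b → (1 : ℝ) / 36 ≤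
      (prob (er (orc (sysE kk k ma S) ⟨B, frH n f₀ (some (e i))⟩)) C
        (n + 1 + F.anc.eval n) y - p₀) ^ 2 := by
    by_cases hp : p₀ ≤ 1 / 2
    · refine ⟨true, fun i hi => ?_⟩
      have h4 := (hright (e i) y hyl).1 ((hmem _).2 hi)
      rw [hacc] at h4
      nlinarith
    · refine ⟨false, fun i hi => ?_⟩
      have h4 := (hright (e i) y hyl).2 (fun h5 => by rw [hmem, hi] at h5; simp at h5)
      rw [hacc] at h4
      push Not at hp
      nlinarith
  have h4 : (((univ.filter fun i => e i l = b).card : ℕ) : ℝ) * (1 / 36) ≤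
      16 * (C.length : ℝ) ^ 2 * ((K : ℝ) + 1) := by
    refine le_trans ?_ h2
    calc (((univ.filter fun i => e i l = b).card : ℕ) : ℝ) * (1 / 36)
        = ∑ _i ∈ univ.filter (fun i => e i l = b), (1 / 36 : ℝ) := by
          rw [sum_const, nsmul_eq_mul]
      _ ≤ ∑ i ∈ univ.filter (fun i => e i l = b),
            (prob (er (orc (sysE kk k ma S) ⟨B, frH n f₀ (some (e i))⟩)) C
              (n + 1 + F.anc.eval n) y - p₀) ^ 2 :=
          sum_le_sum fun i hi => hb i (mem_filter.1 hi).2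
      _ ≤ _ := sum_le_sum_of_subset_of_nonneg (subset_univ _) fun i _ _ => sq_nonneg _
  have h5 : (C.length : ℝ) ^ 2 ≤ (T₀ : ℝ) ^ 2 := by
    refine pow_le_pow_left₀ (Nat.cast_nonneg _) ?_ 2
    exact_mod_cast hCl
  have h6 : (((1152 * n * T₀ ^ 2 * (K + 1) : ℕ)) : ℝ) < (M : ℝ) := by exact_mod_cast hfin
  push_cast at h6
  have h8 : (M : ℝ) ≤ 2 * n * (((univ.filter fun i => e i l = b).card : ℕ) : ℝ) := by
    exact_mod_cast hl b
  have h7 : (0 : ℝ) ≤ (K : ℝ) + 1 := by positivity
  have h9 := mul_le_mul_of_nonneg_right h5 h7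
  have h10 : (((univ.filter fun i => e i l = b).card : ℕ) : ℝ) ≤
      576 * ((T₀ : ℝ) ^ 2 * ((K : ℝ) + 1)) := by nlinarith
  have h11 : (0 : ℝ) ≤ n := Nat.cast_nonneg n
  have h12 := mul_le_mul_of_nonneg_left h10 h11
  nlinarith

theorem epsS_nonneg {X N m t : ℕ} : 0 ≤ epsS X N k m t := by
  unfold epsS
  positivity

/-- the numbers are so small that the blocks of the windows fool -/
theorem LB_small {k r T N₁ L0 : ℕ} {lb : ℝ} {t : ℕ → ℕ} {q : ℕ → ℝ} (hlb : 1 ≤ lb)
    (hq1 : 0 ≤ q 1) (ht1 : ∀ j < r, 1 ≤ j → 1 ≤ t j)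
    (hq : ∀ j < r, 1 ≤ j → (T + 1) * (214 * lb / 2 ^ L0) +
        2 / pS k (t j) * epsS (2 ^ (3 * T + 1)) N₁ k T (t j) +
        (2 / pS k (t j) * (16 * t j) + 1) * q j ≤ q (j + 1)) (hqr : q r < 1 / 2) (hr : 1 < r) :
    32 * lb ≤ 2 ^ L0 := by
  have hpos : ∀ j < r, 1 ≤ j → 0 < pS k (t j) := fun j hj hj1 => by
    have : (1 : ℝ) ≤ t j := by exact_mod_cast ht1 j hj hj1
    unfold pS
    positivity
  have hstep : ∀ j < r, 1 ≤ j → 0 ≤ q j → (T + 1) * (214 * lb / 2 ^ L0) + q j ≤ q (j + 1) := by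
    intro j hj hj1 hj0
    have h1 := hq j hj hj1
    have h2 := hpos j hj hj1
    have h3 : 0 ≤ 2 / pS k (t j) * epsS (2 ^ (3 * T + 1)) N₁ k T (t j) :=
      mul_nonneg (by positivity) epsS_nonneg
    have h4 : 0 ≤ 2 / pS k (t j) * (16 * t j) * q j := by positivity
    nlinarith
  have hA : 0 ≤ (T + 1 : ℝ) * (214 * lb / 2 ^ L0) := by positivity
  have hall : ∀ j, 2 ≤ j → j ≤ r → (T + 1 : ℝ) * (214 * lb / 2 ^ L0) ≤ q j := by
    intro j hj
    induction j, hj using Nat.le_induction with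
    | base =>
      intro _
      have := hstep 1 (by omega) le_rfl hq1
      linarith
    | succ j hj ih =>
      intro h
      have h1 := ih (by omega)
      have := hstep j (by omega) (by omega) (hA.trans h1)
      linarith
  have h1 := hall r hr le_rfl
  have h2 : (214 * lb / 2 ^ L0) ≤ (T + 1 : ℝ) * (214 * lb / 2 ^ L0) := by
    have h3 : (0 : ℝ) ≤ 214 * lb / 2 ^ L0 := by positivity
    have h4 : (0 : ℝ) ≤ T := Nat.cast_nonneg T
    nlinarith
  have h3 : 214 * lb / 2 ^ L0 < 1 / 2 := by linarith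
  have h5 : (0 : ℝ) < 2 ^ L0 := by positivity
  rw [div_lt_iff₀ h5] at h3
  linarith

open Classical in
/-- **One family.** -/
theorem req_E (hK : Kh (kk + 1) ma S R) (F : QFamily) (N₀ : ℕ)
    (D₀ : Dt (sysE kk (kk + 1) ma S).K) (hD : ∀ c t, GE kk S c t (D₀.bl c t)) (hU₀ : Uf D₀.fr) :
    ∃ (D' : Dt (sysE kk (kk + 1) ma S).K) (N' : ℕ),
      (∀ c t, GE kk S c t (D'.bl c t)) ∧ Uf D'.fr ∧
      (∀ c, lev S c < N₀ → D'.bl c = D₀.bl c) ∧
      (∀ u : List Bool, u.length < N₀ → D'.fr u = D₀.fr u) ∧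
      ∀ D'' : Dt (sysE kk (kk + 1) ma S).K, (∀ c, lev S c < N' → D''.bl c = D'.bl c) →
        (∀ u : List Bool, u.length < N' → D''.fr u = D'.fr u) →
          ¬ RtU F (er (orc (sysE kk (kk + 1) ma S) D'')) D''.fr := by
  obtain ⟨Rp, hRp⟩ := F.size
  obtain ⟨s, r, m', u, u₁, T, Ks, t, q, hN, hs, hRT, hnT, hTr, hr, hTm, hm2, hm3, hu, ht, ht1,
    hKK, hu₁, hTu, hK1, hq1, hq, hqr, hfin⟩ := exists_num3 (kk + 1)
      (Polynomial.C 8 * Polynomial.X * (Rp + 1) + Rp) N₀
  obtain ⟨as, a, hlen, has, ha, hlaw⟩ := exists_as hs (kk + 1)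
  set n := 64 * s with hn
  set f₀ := D₀.fr with hf₀
  set X := Fin (2 ^ a) with hX
  set lv := 16 * n + 6 with hlv
  set cs : List ℕ := 8 * s :: pw as with hcs
  set M := 2 ^ (4 * s - 3) with hM
  have hcX := card_XH hK T
  have hRT' : 8 * n * (Rp.eval n + 1) + Rp.eval n ≤ T := by
    simpa using hRT
  have hRT0 : Rp.eval n ≤ T := by omega
  -- names of the roots
  obtain ⟨emb⟩ : Nonempty (X ↪ (Fin n → Bool)) := Function.Embedding.nonempty_of_card_le (by
    rw [Fintype.card_fun, Fintype.card_bool, Fintype.card_fin, Fintype.card_fin]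
    exact Nat.pow_le_pow_right (by norm_num) ha)
  set cd : X → ℕ × List Bool := fun x => ((0 : ℕ), List.ofFn (emb x)) with hcd
  have hinj : Function.Injective cd := fun i i' h =>
    emb.injective (List.ofFn_injective (congrArg Prod.snd h))
  have hrW : ∀ x, cd x ∈ WH S n T 0 := fun x => mem_W0.2 ⟨rfl, List.length_ofFn⟩
  have hoff : ∀ c : ℕ × List Bool, c ∉ WH S n T 0 → ∀ x, cd x ≠ c := fun c hc x h =>
    hc (h ▸ hrW x)
  have hfa : List.Forall₂ (fun c c' => c ≤ c' ∧ 1 ≤ c') cs (SP.shp lv kk) :=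
    fa_shp2 (by omega) (by omega) hlen has
  -- the good outcomes
  obtain ⟨P, hP⟩ : ∃ P : OmL X s (pw as) → Prop, ∀ ω, P ω ↔
      ((∀ x, rstL s (pw as) ω x ≠ some true) ∧
        M ≤ (univ.filter fun x => rstL s (pw as) ω x = none).card) ∧ muL s (pw as) ω ≠ 0 :=
    ⟨_, fun _ => Iff.rfl⟩
  have hmu0 : ∀ ω : OmL X s (pw as), 0 ≤ muL s (pw as) ω := fun ω => muL_nonneg hs (pw as) ω
  have hex : ∀ ω : {ω // P ω}, ∃ e : Fin M → X, Function.Injective e ∧
      ∀ i, rstL s (pw as) ω.1 (e i) = none := by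
    intro ω
    have h1 : Fintype.card (Fin M) ≤ Fintype.card {x // rstL s (pw as) ω.1 x = none} := by
      rw [Fintype.card_fin, Fintype.card_subtype]
      exact ((hP _).1 ω.2).1.2
    obtain ⟨g⟩ := Function.Embedding.nonempty_of_card_le h1
    exact ⟨fun i => (g i).1, fun i i' h => g.injective (Subtype.ext h), fun i => (g i).2⟩
  choose e he1 he2 using hex
  have hsub : ∑ ω : {ω // P ω}, muL s (pw as) ω.1 = ∑ ω ∈ univ.filter P, muL s (pw as) ω :=
    (Finset.sum_subtype (univ.filter P) (fun x => by simp) (fun ω => muL s (pw as) ω)).symm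
  have hsum1 : ∑ ω : {ω // P ω}, muL s (pw as) ω.1 ≤ 1 := by
    rw [hsub, ← muL_sum (X := X) hs (pw as)]
    exact sum_le_sum_of_subset_of_nonneg (filter_subset _ _) fun ω _ _ => hmu0 ω
  have hsum2 : 1 / 2 ≤ ∑ ω : {ω // P ω}, muL s (pw as) ω.1 := by
    rw [hsub, sum_filter]
    refine hlaw.trans (sum_le_sum fun ω _ => ?_)
    by_cases h0 : muL s (pw as) ω = 0
    · rw [h0]
      simp
    · split_ifs with h1 h2 h2
      · rw [mul_one]
      · exact absurd ((hP ω).2 ⟨h1, h0⟩) h2
      · rw [mul_zero]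
        exact hmu0 ω
      · rw [mul_zero]
  have hneP : Nonempty {ω // P ω} := by
    by_contra hcon
    rw [not_nonempty_iff] at hcon
    rw [univ_eq_empty, sum_empty] at hsum2
    norm_num at hsum2
  have hinj2 : ∀ ω, Function.Injective fun l => emb (e ω l) := fun ω =>
    emb.injective.comp (he1 ω)
  have hGz : ∀ (c : ℕ × List Bool), c.1 = 0 → ∀ t V, GE kk S c t V ↔ sval (lev S c) kk V = t :=
    fun c h t V => by
      unfold GE
      rw [if_pos h]
  -- the blocks
  obtain ⟨Bk, hBg, hBk⟩ := exists_bkE hK kk (kk + 1 + 3) u ((kk + 1 + 3) * (2 * m' + 1))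
  have hGood : ∀ ω : {ω // P ω}, Good (Y := sysE kk (kk + 1) ma S) Bk
      (phi cs s lv kk (pw as) cd ω.1 D₀.bl) := by
    intro ω c t
    refine (hBg c t _).2 ?_
    by_cases hx : ∃ x, cd x = c
    · obtain ⟨x, rfl⟩ := hx
      have hlev : lev S (cd x) = lv := by
        rw [lev_zero hK rfl, List.length_ofFn]
      have h1 : phi (K := ℕ × List Bool) cs s lv kk (pw as) cd ω.1 D₀.bl (cd x) = _ :=
        rowG_on hinj _ _ x
      show GE kk S (cd x) t (phi (K := ℕ × List Bool) cs s lv kk (pw as) cd ω.1 D₀.bl (cd x) t)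
      rw [h1, hGz (cd x) rfl, hlev]
      cases t
      · show sval lv kk (cnX cs lv kk (lfmL s (pw as) ω.1 fun _ => false) x) = false
        rw [sval_cnX hfa, tr_lfmL ((hP _).1 ω.2).2]
        have h2 := ((hP _).1 ω.2).1.1 x
        cases h3 : rstL s (pw as) ω.1 x with
        | none => rfl
        | some b =>
          cases b
          · rfl
          · exact absurd h3 h2
      · show sval lv kk (if rstL s (pw as) ω.1 x = none then
          cnX cs lv kk (lfmL s (pw as) ω.1 (sg x)) x else D₀.bl (cd x) true) = true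
        split_ifs with h2
        · rw [sval_cnX hfa, tr_lfmL ((hP _).1 ω.2).2, h2]
          show decide (x = x) = true
          exact decide_eq_true rfl
        · rw [← hlev]
          exact (hGz (cd x) rfl _ _).1 (hD (cd x) true)
    · push Not at hx
      have h1 : phi (K := ℕ × List Bool) cs s lv kk (pw as) cd ω.1 D₀.bl c = D₀.bl c :=
        rowG_off _ _ hx
      show GE kk S c t (phi (K := ℕ × List Bool) cs s lv kk (pw as) cd ω.1 D₀.bl c t)
      rw [h1]
      exact hD c t
  have hq10 : 0 ≤ q 1 := le_trans (by positivity) hq1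
  obtain ⟨ω, B, hB1, hB2, hB3⟩ := exists_goodO (Y := sysE kk (kk + 1) ma S) (Bk := Bk)
    (μ := fun ω : {ω // P ω} => muL s (pw as) ω.1)
    (Φ := fun ω D => phi cs s lv kk (pw as) cd ω.1 D)
    (fr := fun ω i => frH n f₀ (i.map fun l => emb (e ω l)))
    (r := r) (m' := m') (u := u) (Λ := (kk + 1 + 3) * (2 * m' + 1)) (Ks := Ks) (t := t)
    (δ := fun c => 107 * LB u 1 (kk + 1 + 3) / 8 ^ (lev S c))
    (fun ω => (win_E (kk := kk) hK n T f₀).precomp (hinj2 ω))
    (fun ω => hmu0 ω.1) hsum1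
    (fun ω j hj c hc D v => phi_update hinj ω.1 D (hoff c fun h0 => by
      have := (win_E (kk := kk) hK n T f₀).dj 0 j c h0 hc
      omega) v)
    (fun ω D c hc => rowG_off _ _ (hoff c hc))
    (fun c => by have := one_le_LB u 1 (kk + 1 + 3); positivity)
    hTm
    (fun j hj => by
      rw [Fintype.card_fin]
      exact le_trans (Nat.mul_le_mul_left _ (Nat.mul_le_mul_right _ hcX)) (hm2 j hj))
    hm3 (by omega) le_rfl
    (fun j hj hj1 c hc => by
      obtain ⟨l, rfl⟩ : ∃ l, j = l + 1 := ⟨j - 1, by omega⟩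
      have hge := WH_ge hK hc
      obtain ⟨⟨h1, h2⟩, _⟩ := (mem_WS hK).1 hc
      refine hBk c h2 (by omega) ?_
      refine (LB_small (one_le_LB u 1 (kk + 1 + 3)) hq10 ht1 hq hqr (by omega)).trans ?_
      refine pow_le_pow_right₀ (by norm_num) ?_
      rw [us_eq]
      omega) ht ht1 hKK (q := q)
    (fun D hD => (row_stepE hK hs hu₁ hlen hTu hK1 emb.injective P e he1 he2 f₀ hcX D hD lv).trans
      hq1)
    (fun j hj hj1 => by
      refine le_trans (add_le_add_left (add_le_add ?_ ?_) _) (hq j hj hj1)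
      · exact sum_W hK hnT (by have := one_le_LB u 1 (kk + 1 + 3); linarith) j
      · have hpos : 0 < pS (kk + 1) (t j) := by
          have : (1 : ℝ) ≤ t j := by exact_mod_cast ht1 j hj hj1
          unfold pS
          positivity
        rw [Fintype.card_fin]
        exact mul_le_mul_of_nonneg_left (epsS_mono hcX) (by positivity))
    (lt_of_lt_of_le hqr hsum2) hr
    (fun j hj => by
      obtain ⟨l, rfl⟩ : ∃ l, j = l + 1 := ⟨j - 1, by omega⟩
      refine List.eq_nil_iff_forall_not_mem.2 fun c hc => ?_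
      obtain ⟨⟨h1, _⟩, h2, _⟩ := (mem_WS hK).1 hc
      have h3 : lv ^ 2 ^ r ≤ (16 * n + 6) ^ 2 ^ (l + 1) :=
        pow_tower (s := 16 * n + 6) (by omega) hj
      omega) D₀.bl hGood
  refine req_coreE (G := GE kk S) hK F N₀ D₀ hU₀ (T₀ := Rp.eval n) (hinj2 ω) (hRp n).1
    (fun l r' hl => ((hRp n).2 l r' hl).trans hRT0) hN ?_ ?_ (fun c t => (hBg c t _).1 (hB1 c t))
    (fun c hc => (hB2 c fun j _ => hc j).trans (rowG_off _ _ (hoff c (hc 0)))) hB3
  · refine lt_of_le_of_lt ?_ hfin
    refine Nat.mul_le_mul_right _ ?_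
    set E := Rp.eval n with hE
    have h1 : 8 * n * (E + 1) ≤ T := by omega
    have h2 : (8 * n * (E + 1)) ^ 2 ≤ T ^ 2 := Nat.pow_le_pow_left h1 2
    have h3 : 8 * n * E ^ 2 ≤ (8 * n * (E + 1)) ^ 2 := by
      have h4 : 1 ≤ 8 * n := by omega
      have h5 : 8 * n ≤ (8 * n) ^ 2 := Nat.le_self_pow (by norm_num) _
      have h6 : E ^ 2 ≤ (E + 1) ^ 2 := Nat.pow_le_pow_left (Nat.le_succ E) 2
      rw [mul_pow]
      exact Nat.mul_le_mul h5 h6
    calc 1152 * n * E ^ 2 = 144 * (8 * n * E ^ 2) := by ring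
      _ ≤ 144 * T ^ 2 := Nat.mul_le_mul_left _ (h3.trans h2)
  · have : 2 ^ 1 ≤ 2 ^ (4 * s - 3) := Nat.pow_le_pow_right (by norm_num) (by omega)
    omega

end Pool.Agent.H9x.PE
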