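import Pool.Agent.H9x.PE.Req
import Pool.Agent.H9x.PE.DecE
import Pool.Agent.H9x.PN.WorldG

/-!
# The world in which `Σ_k` is in `EQP` and `Σ_{k+1} ∩ Π_{k+1}` is not in `BQP`
-/

set_option autoImplicit false
set_option linter.unusedSectionVars false
set_option linter.unusedVariables false

namespace Pool.Agent.H9x.PE

open Finset H568R2 Pool.Agent.H676 Pool.Agent.NPC Pool.Agent.H622R2 Pool.Agent.H620R2.Gauge
  Pool.Agent.H622R2.Exp Pool.Agent.TH678.ETH Pool.Agent.TH678.SETH Pool.Agent.TH678.RS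
  Pool.Agent.H9x.Q Filter Pool.Agent.H591R3.PHG

open Pool.Agent.H9x.RT (lev)
open Pool.Agent.H9x.SP (Sys Dt orc Blk sval Lv dat)
open Pool.Agent.H9x.SN (er nam nam_inj nam_len)
open Pool.Agent.H9x.PN (Kh exists_kh)
open Pool.Agent.H9x.V1 (finite_ext)
open Pool.Agent.K7x.EQ (Yes No IsEQP)

variable {kk k : ℕ} {ma : ℕ → Alg × Polynomial ℕ} {S R : ℕ → Polynomial ℕ}

/-- the data of one level are good -/
def GLE (kk : ℕ) (S : ℕ → Polynomial ℕ) (s : ℕ)
    (v : (ℕ × List Bool → Bool → List Bool → Bool) × (List Bool → Bool)) : Prop :=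
  (∀ c, lev S c = s → ∀ t, GE kk S c t (v.1 c t)) ∧
    ∀ n, n + 1 = s → ∃! x : List Bool, x.length = n ∧ v.2 (nam 0 x) = true

theorem ge_dat {κ : ℕ → Lv (sysE kk k ma S)} (h : ∀ s, GLE kk S s (κ s)) (c : ℕ × List Bool)
    (t : Bool) : GE kk S c t ((dat (sysE kk k ma S) κ).bl c t) := (h (lev S c)).1 c rfl t

theorem uf_dat {κ : ℕ → Lv (sysE kk k ma S)} (h : ∀ s, GLE kk S s (κ s)) :
    Uf (dat (sysE kk k ma S) κ).fr := by
  intro n
  have key : ∀ x : List Bool, x.length = n → (dat (sysE kk k ma S) κ).fr (nam 0 x) =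
      (κ (n + 1)).2 (nam 0 x) := by
    intro x hx
    show (κ (nam 0 x).length).2 (nam 0 x) = _
    rw [nam_len, hx, Nat.add_comm]
  obtain ⟨x, ⟨h1, h2⟩, h3⟩ := (h (n + 1)).2 n rfl
  refine ⟨x, ⟨h1, (key x h1).trans h2⟩, ?_⟩
  rintro y ⟨h4, h5⟩
  exact h3 y ⟨h4, (key y h4).symm.trans h5⟩

/-- good data exist -/
theorem exists_goodE (hK : Kh k ma S R) (kk : ℕ) :
    ∃ κ : ℕ → Lv (sysE kk k ma S), ∀ s, GLE kk S s (κ s) := by
  obtain ⟨Bk, hBg, _⟩ := exists_bkE hK kk 0 0 0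
  have h1 : ∀ (c : ℕ × List Bool) (t : Bool), ∃ V, (Bk c).good t V := by
    intro c t
    by_contra hcon
    push Not at hcon
    have h2 : ∀ z, (Bk c).P t z = 0 := fun z => by
      by_contra h3
      exact hcon _ ((Bk c).sup t z h3)
    have := (Bk c).s1 t
    simp [h2] at this
  choose V hV using h1
  refine ⟨fun s => (V, fun u => decide (u = nam 0 (List.replicate (u.length - 1) false))),
    fun s => ⟨fun c _ t => (hBg c t _).1 (hV c t), fun n hn => ?_⟩⟩
  have key : ∀ x : List Bool, x.length = n →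
      (decide (nam 0 x = nam 0 (List.replicate ((nam 0 x).length - 1) false)) = true ↔
        x = List.replicate n false) := by
    intro x hx
    rw [decide_eq_true_iff, nam_len, hx, Nat.add_comm, Nat.add_sub_cancel]
    exact ⟨fun h => (nam_inj h).2, fun h => by rw [h]⟩
  refine ⟨List.replicate n false, ⟨List.length_replicate, (key _ List.length_replicate).2 rfl⟩, ?_⟩
  rintro y ⟨h4, h5⟩
  exact (key y h4).1 h5

/-- requirements on data in the form of requirements on levels -/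
theorem stage_E {Q : Dt (sysE kk k ma S).K → Prop}
    (hreq : ∀ (N₀ : ℕ) (D₀ : Dt (sysE kk k ma S).K), (∀ c t, GE kk S c t (D₀.bl c t)) → Uf D₀.fr →
      ∃ (D' : Dt (sysE kk k ma S).K) (N' : ℕ), (∀ c t, GE kk S c t (D'.bl c t)) ∧ Uf D'.fr ∧
      (∀ c, lev S c < N₀ → D'.bl c = D₀.bl c) ∧
      (∀ u : List Bool, u.length < N₀ → D'.fr u = D₀.fr u) ∧
      ∀ D'' : Dt (sysE kk k ma S).K, (∀ c, lev S c < N' → D''.bl c = D'.bl c) →
        (∀ u : List Bool, u.length < N' → D''.fr u = D'.fr u) → Q D'')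
    (N₀ : ℕ) (κ : ℕ → Lv (sysE kk k ma S)) (hκ : ∀ s, GLE kk S s (κ s)) :
    ∃ (κ' : ℕ → Lv (sysE kk k ma S)) (N' : ℕ), (∀ s, GLE kk S s (κ' s)) ∧
      (∀ s < N₀, κ' s = κ s) ∧
      ∀ κ'' : ℕ → Lv (sysE kk k ma S), (∀ s, GLE kk S s (κ'' s)) → (∀ s < N', κ'' s = κ' s) →
        Q (dat (sysE kk k ma S) κ'') := by
  obtain ⟨D', N', hD', hU, hb, hf, hne⟩ := hreq N₀ (dat (sysE kk k ma S) κ)
    (ge_dat hκ) (uf_dat hκ)
  set κ' : ℕ → Lv (sysE kk k ma S) := fun s => if s < N₀ then κ s else (D'.bl, D'.fr) with hκ'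
  have hdat : dat (sysE kk k ma S) κ' = D' := by
    have e1 : (dat (sysE kk k ma S) κ').bl = D'.bl := by
      funext c
      show (κ' (lev S c)).1 c = _
      rw [hκ']
      simp only
      split_ifs with hlt
      · exact (hb c hlt).symm
      · rfl
    have e2 : (dat (sysE kk k ma S) κ').fr = D'.fr := by
      funext v
      show (κ' v.length).2 v = _
      rw [hκ']
      simp only
      split_ifs with hlt
      · exact (hf v hlt).symm
      · rfl
    cases D'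
    simp only at e1 e2
    rw [← e1, ← e2]
  refine ⟨κ', N', fun s => ?_, fun s hs => by rw [hκ']; exact if_pos hs, fun κ'' _ hag => ?_⟩
  · rw [hκ']
    simp only
    split_ifs with hlt
    · exact hκ s
    · exact ⟨fun c hcs t => hD' c t, fun n _ => hU n⟩
  · refine hne (dat (sysE kk k ma S) κ'') (fun c hc => ?_) fun v hv => ?_
    · show (κ'' (lev S c)).1 c = _
      rw [hag _ hc, ← hdat]
      rfl
    · show (κ'' v.length).2 v = _
      rw [hag _ hv, ← hdat]
      rfl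

/-- the complement of the language -/
theorem LU_compl {f : List Bool → Bool} (hf : Uf f) :
    (LU f)ᶜ = {y | ∃ x : List Bool, x.length = y.length ∧ f (nam 0 x) = true ∧
      (!hit x y) = true} := by
  ext y
  obtain ⟨x, ⟨h1, h2⟩, h3⟩ := hf y.length
  constructor
  · intro hy
    refine ⟨x, h1, h2, ?_⟩
    cases h4 : hit x y
    · rfl
    · exact absurd ⟨x, h1, h2, h4⟩ hy
  · rintro ⟨x', h4, h5, h6⟩ ⟨x'', h7, h8, h9⟩
    rw [h3 x' ⟨h4, h5⟩] at h6
    rw [h3 x'' ⟨h7, h8⟩] at h9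
    rw [h9] at h6
    exact absurd h6 (by simp)

/-- **The world.** -/
theorem worldE (kk : ℕ) : ∃ A : Oracle, (∀ L, IsSig A (kk + 1) L → IsEQP A L) ∧
    ∃ L, IsSig A (kk + 2) L ∧ IsSig A (kk + 2) Lᶜ ∧ ¬ IsBQP A L := by
  have hne1 : Nonempty (Alg × Polynomial ℕ) := ⟨⟨⟨fun _ => [], CC.const_polyTime _, 0⟩, 0⟩⟩
  have hcP := CC.poly_countable
  obtain ⟨ma, hma⟩ := exists_surjective_nat (Alg × Polynomial ℕ)
  obtain ⟨S, R, hK⟩ := exists_kh (kk + 1) ma
  have hne2 : Nonempty QFamily := ⟨⟨fun _ => [], by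
    have h1 : (fun u : List Bool => bits ((fun _ : ℕ => ([] : List Gate)) u.length)) =
        fun _ => bits ([] : List Gate) := rfl
    exact CC.const_polyTime _, 0⟩⟩
  obtain ⟨qf, hqf⟩ := exists_surjective_nat QFamily
  obtain ⟨κ, hκ, hP⟩ := finite_ext (β := Lv (sysE kk (kk + 1) ma S)) (GLE kk S)
    (fun j κ => ¬ RtU (qf j) (er (orc (sysE kk (kk + 1) ma S) (dat (sysE kk (kk + 1) ma S) κ)))
          (dat (sysE kk (kk + 1) ma S) κ).fr)
    (exists_goodE hK kk)
    (fun j N₀ κ hκ => stage_E (fun N₀ D₀ hD₀ hU₀ => req_E hK (qf j) N₀ D₀ hD₀ hU₀) N₀ κ hκ)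
  have hge := fun (c : ℕ × List Bool) (t : Bool) =>
    ge_dat (kk := kk) (k := kk + 1) (ma := ma) hκ c t
  have hsip : ∀ c : ℕ × List Bool, c.1 = 0 → ∀ t, sval (lev S c) kk
      ((dat (sysE kk (kk + 1) ma S) κ).bl c t) = t := fun c h t => by
    have h1 := hge c t
    unfold GE at h1
    rwa [if_pos h] at h1
  refine ⟨er (orc (sysE kk (kk + 1) ma S) (dat (sysE kk (kk + 1) ma S) κ)), fun L hL =>
    eqp_of_sigE hma hK (fun c h => ?_) (fun c h => ?_) hL, LU (dat (sysE kk (kk + 1) ma S) κ).fr,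
    sig_hidE hK hsip hit poly_hit, ?_, ?_⟩
  · have h1 := hge c true
    unfold GE at h1
    rwa [if_neg h, if_pos rfl] at h1
  · have h1 := hge c false
    unfold GE at h1
    rwa [if_neg h, if_neg (by simp)] at h1
  · rw [LU_compl (uf_dat hκ)]
    exact sig_hidE hK hsip (fun x y => !hit x y) poly_hit.not
  · rintro ⟨F, hF⟩
    obtain ⟨j, rfl⟩ := hqf F
    exact hP j hF

end Pool.Agent.H9x.PE
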